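import Pool.Agent.SawFlat.Len

/-!
Crossings of every height.
-/

set_option autoImplicit false

open Classical Filter

namespace SawNu.SB

open Pool.Agent.Lib.SAW.HW Pool.Agent.SawBr38 SawNu.SBR

variable {C : CL} {L : RLat}

/-- crossings of almost linear length have stretched exponentially small weight -/
theorem crossing_upper'
    (hR : ∀ β : ℝ, 0 < β → β < 1 / 2 → RateGain (fun x => (G C 0 x - G C 0 0) / x) β)
    {δ β : ℝ} (hδ : 0 < δ) (h0 : 0 < β) (h1 : β < 1 / 2) :
    ∀ᶠ T : ℕ in atTop, ∀ N : ℕ, (N : ℝ) ≤ T * Real.exp (Real.log T ^ β) →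
      bT C 0 (G C 0 0) N T ≤ Real.exp (-((T : ℝ) ^ (1 - δ))) := by
  set β' : ℝ := (β + 1 / 2) / 2 with hβ'
  have hb1 : β < β' := by rw [hβ']; linarith
  have hb2 : β' < 1 / 2 := by rw [hβ']; linarith
  have hb0 : 0 < β' := by linarith
  obtain ⟨K, hK0, hK⟩ := hR β' hb0 hb2
  have hδ2 : 0 < δ / 2 := by linarith
  -- asymptotics in `u = log T`
  have e1 : ∀ᶠ u : ℝ in atTop, K * Real.exp (u ^ β - (δ / 2 * u) ^ β') ≤ 1 / 2 := by
    have o1 : (fun x : ℝ => x ^ β) =o[atTop] fun x => x ^ β' := isLittleO_rpow_rpow_atTop' hb1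
    have t2 : Tendsto (fun u : ℝ => u ^ β') atTop atTop := tendsto_rpow_atTop hb0
    have hc : (0 : ℝ) < (δ / 2) ^ β' / 2 := by positivity
    have h5 := o1.def hc
    have h6 : ∀ᶠ u : ℝ in atTop, Real.log (2 * K) / ((δ / 2) ^ β' / 2) ≤ u ^ β' :=
      t2.eventually_ge_atTop _
    filter_upwards [h5, h6, eventually_ge_atTop (1 : ℝ)] with u hu1 hu2 hu3
    have hu0 : 0 ≤ u := by linarith
    rw [Real.norm_of_nonneg (Real.rpow_nonneg hu0 _), Real.norm_of_nonneg
      (Real.rpow_nonneg hu0 _)] at hu1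
    have h7 : (δ / 2 * u) ^ β' = (δ / 2) ^ β' * u ^ β' := Real.mul_rpow hδ2.le hu0
    have h8 : Real.log (2 * K) ≤ (δ / 2) ^ β' / 2 * u ^ β' := by
      rw [div_le_iff₀ hc] at hu2
      linarith
    have h9 : u ^ β - (δ / 2 * u) ^ β' ≤ -Real.log (2 * K) := by
      rw [h7]
      have : (δ / 2) ^ β' * u ^ β' = (δ / 2) ^ β' / 2 * u ^ β' + (δ / 2) ^ β' / 2 * u ^ β' := by
        ring
      rw [this]
      linarith
    have hAK : 0 < 2 * K := by positivity
    calc K * Real.exp (u ^ β - (δ / 2 * u) ^ β')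
        ≤ K * Real.exp (-Real.log (2 * K)) :=
          mul_le_mul_of_nonneg_left (Real.exp_le_exp.2 h9) hK0.le
      _ = 1 / 2 := by
          rw [Real.exp_neg, Real.exp_log hAK]
          field_simp
  have e2 : ∀ᶠ T : ℕ in atTop, (T : ℝ) ^ (1 - δ) ≤ (T : ℝ) ^ (1 - δ / 2) / 2 ∧
      (T : ℝ) ^ (-(δ / 2)) ≤ 1 / 2 := by
    have t1 : Tendsto (fun n : ℕ => (n : ℝ)) atTop atTop := tendsto_natCast_atTop_atTop
    have h2 : ∀ᶠ Q : ℕ in atTop, (2 : ℝ) ≤ (Q : ℝ) ^ (δ / 2) :=
      t1.eventually ((tendsto_rpow_atTop hδ2).eventually_ge_atTop _)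
    filter_upwards [h2, eventually_ge_atTop 1] with T h3 hT
    have hT0 : (0 : ℝ) < T := by exact_mod_cast hT
    constructor
    · have h4 : (T : ℝ) ^ (1 - δ / 2) = (T : ℝ) ^ (1 - δ) * (T : ℝ) ^ (δ / 2) := by
        rw [← Real.rpow_add hT0]
        congr 1
        ring
      rw [h4]
      have h5 : 0 < (T : ℝ) ^ (1 - δ) := Real.rpow_pos_of_pos hT0 _
      nlinarith
    · rw [Real.rpow_neg hT0.le, ← one_div]
      exact one_div_le_one_div_of_le (by norm_num) h3
  have t1 : Tendsto (fun n : ℕ => Real.log (n : ℝ)) atTop atTop :=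
    Real.tendsto_log_atTop.comp tendsto_natCast_atTop_atTop
  filter_upwards [t1.eventually e1, e2, eventually_ge_atTop 2] with T g1 g2 hT
  intro N hN
  have hT2 : (2 : ℝ) ≤ T := by exact_mod_cast hT
  have hT0 : (0 : ℝ) < T := by linarith
  set u : ℝ := Real.log T with hu
  have hu0 : 0 < u := Real.log_pos (by linarith)
  set v : ℝ := (T : ℝ) ^ (-(δ / 2)) with hv
  have hv0 : 0 < v := Real.rpow_pos_of_pos hT0 _
  have hv2 : v ≤ 1 / 2 := g2.2
  have h2 := bT_short (C := C) v hv0.le N T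
  have h3 := hK v hv0 hv2
  simp only at h3
  rw [div_le_iff₀ hv0] at h3
  have h4 : Real.log (1 / v) = δ / 2 * u := by
    rw [one_div, Real.log_inv, hv, Real.log_rpow hT0]
    ring
  rw [h4] at h3
  have h7 : v * T = (T : ℝ) ^ (1 - δ / 2) := by
    rw [hv]
    nth_rw 2 [← Real.rpow_one (T : ℝ)]
    rw [← Real.rpow_add hT0]
    congr 1
    ring
  have h6 : (G C 0 v - G C 0 0) * N ≤ v * T / 2 := by
    calc (G C 0 v - G C 0 0) * N ≤ (K * Real.exp (-((δ / 2 * u) ^ β')) * v) * N :=
          mul_le_mul_of_nonneg_right h3 (Nat.cast_nonneg _)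
      _ ≤ (K * Real.exp (-((δ / 2 * u) ^ β')) * v) * (T * Real.exp (u ^ β)) :=
          mul_le_mul_of_nonneg_left hN (by positivity)
      _ = v * T * (K * (Real.exp (u ^ β) * Real.exp (-((δ / 2 * u) ^ β')))) := by ring
      _ = v * T * (K * Real.exp (u ^ β - (δ / 2 * u) ^ β')) := by
          rw [← Real.exp_add, sub_eq_add_neg]
      _ ≤ v * T * (1 / 2) := mul_le_mul_of_nonneg_left g1 (by positivity)
      _ = v * T / 2 := by ring
  refine h2.trans (Real.exp_le_exp.2 ?_)
  have h8 := g2.1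
  rw [← h7] at h8
  linarith

lemma exists_b_one : Real.exp (-(G C 0 0)) ≤ bT C 0 (G C 0 0) 1 1 := by
  have h1 : [C.up] ∈ brh C 1 1 := by
    rw [mem_brh]
    refine ⟨by simp, ?_, ?_⟩
    · refine ⟨?_, ?_, ?_, ?_⟩
      · intro s hs
        rw [List.mem_singleton] at hs
        subst hs
        exact C.upS
      · intro i j hij hj
        have : i = 0 ∧ j = 1 := by
          simp only [List.length_singleton] at hj
          omega
        obtain ⟨rfl, rfl⟩ := this
        intro h
        have h2 := congrArg Prod.snd h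
        simp [ps, C.up2] at h2
      · intro i hi1 hi2
        simp only [List.length_singleton] at hi2
        have : i = 1 := by omega
        subst this
        simp [ps, C.up2]
      · intro i hi
        simp only [List.length_singleton] at hi
        have : i = 0 ∨ i = 1 := by omega
        rcases this with rfl | rfl <;> simp [ps, C.up2]
    · simp [ht, C.up2]
  have h2 : wg 0 0 (G C 0 0) [C.up] = Real.exp (-(G C 0 0)) := by
    rw [wg, fw]
    congr 1
    simp
  rw [← h2]
  exact Finset.single_le_sum (f := fun l => wg 0 0 (G C 0 0) l)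
    (fun l _ => (wg_pos _ _ _ _).le) h1

/-- greedy decomposition -/
theorem crossing_all (hM : Mirrored L) (hup : ∀ b, ∃ u ∈ L.S b, u.2 = 1)
    (hS : ∀ b, L.S b = C.S) (R : Rot L) {ε : ℝ} (hε : 0 < ε) :
    ∃ K₀ : ℝ, ∃ M : ℕ, 0 ≤ K₀ ∧ ∀ T : ℕ, 1 ≤ T → ∃ N : ℕ,
      (N : ℝ) ≤ (T : ℝ) ^ (2 + ε) + M ∧
      Real.exp (-(20 * (1 + Real.log T) ^ 2 + K₀)) ≤ bT C 0 (G C 0 0) N T := by
  obtain ⟨Q₀, hQ₀⟩ := eventually_atTop.1 (crossing_lower hM hup hS R hε)
  set q : ℕ := 4 * (Q₀ + 1) with hq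
  have hG : 0 ≤ G C 0 0 := G_nonneg 0 le_rfl
  refine ⟨G C 0 0 * q, q, by positivity, ?_⟩
  intro T
  induction T using Nat.strong_induction_on with
  | _ T ih =>
    intro hT
    have hT1 : (1 : ℝ) ≤ T := by exact_mod_cast hT
    have hT0 : (0 : ℝ) < T := by linarith
    have hlogT : 0 ≤ Real.log T := Real.log_nonneg hT1
    rcases lt_or_ge T q with hsmall | hbig
    · -- straight crossings
      refine ⟨T, ?_, ?_⟩
      · have h1 : (T : ℝ) ≤ q := by exact_mod_cast hsmall.le
        have h2 : 0 ≤ (T : ℝ) ^ (2 + ε) := Real.rpow_nonneg hT0.le _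
        linarith
      · have h1 := bT_pow (C := C) 0 (G C 0 0) 1 1 T
        rw [mul_one] at h1
        have h2 : Real.exp (-(G C 0 0)) ^ T ≤ bT C 0 (G C 0 0) 1 1 ^ T :=
          pow_le_pow_left₀ (Real.exp_pos _).le exists_b_one T
        rw [← Real.exp_nat_mul] at h2
        refine le_trans ?_ (h2.trans h1)
        apply Real.exp_le_exp.2
        have h3 : (T : ℝ) ≤ q := by exact_mod_cast hsmall.le
        have h4 : G C 0 0 * T ≤ G C 0 0 * q := mul_le_mul_of_nonneg_left h3 hG
        have h5 : 0 ≤ 20 * (1 + Real.log T) ^ 2 := by positivity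
        linarith
    · set Q : ℕ := T / 4 with hQdef
      have hQQ : Q₀ ≤ Q := by omega
      have hQ1 : 1 ≤ Q := by omega
      obtain ⟨T₁, hT₁1, hT₁2, hT₁3⟩ := hQ₀ Q hQQ
      have hQr : (1 : ℝ) ≤ Q := by exact_mod_cast hQ1
      have hQr0 : (0 : ℝ) < Q := by linarith
      have hQT : (Q : ℝ) ≤ T / 4 := by
        have : (4 * Q : ℕ) ≤ T := by omega
        have h2 : ((4 * Q : ℕ) : ℝ) ≤ T := by exact_mod_cast this
        push_cast at h2
        linarith
      have hT₁T : T₁ ≤ T := by omega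
      set N₁ : ℕ := ⌈(Q : ℝ) ^ (2 + ε)⌉₊ with hN₁
      have hb1 := hT₁3 N₁ (Nat.le_ceil _)
      have hpowQ : 0 < (Q : ℝ) ^ (2 + ε) := Real.rpow_pos_of_pos hQr0 _
      have hone : 1 ≤ (Q : ℝ) ^ (2 + ε) := Real.one_le_rpow hQr (by linarith)
      have hN₁le : (N₁ : ℝ) ≤ 2 * (Q : ℝ) ^ (2 + ε) := by
        have := Nat.ceil_lt_add_one hpowQ.le
        linarith
      have hQpow : (Q : ℝ) ^ (2 + ε) ≤ (T : ℝ) ^ (2 + ε) / 16 := by
        have h1 : (Q : ℝ) ^ (2 + ε) ≤ ((T : ℝ) / 4) ^ (2 + ε) :=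
          Real.rpow_le_rpow hQr0.le hQT (by linarith)
        have h2 : ((T : ℝ) / 4) ^ (2 + ε) = (T : ℝ) ^ (2 + ε) * (1 / 4 : ℝ) ^ (2 + ε) := by
          rw [div_eq_mul_one_div, Real.mul_rpow hT0.le (by norm_num)]
        have h3 : (1 / 4 : ℝ) ^ (2 + ε) ≤ 1 / 16 := by
          have h4 : (1 / 4 : ℝ) ^ (2 + ε) ≤ (1 / 4 : ℝ) ^ (2 : ℝ) :=
            Real.rpow_le_rpow_of_exponent_ge (by norm_num) (by norm_num) (by linarith)
          refine h4.trans (le_of_eq ?_)
          rw [Real.rpow_two]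
          norm_num
        rw [h2] at h1
        have h5 : 0 < (T : ℝ) ^ (2 + ε) := Real.rpow_pos_of_pos hT0 _
        nlinarith
      -- the weight of the first part
      have hlogQ : Real.log Q ≤ Real.log T - 1 := by
        have h1 : Real.log Q ≤ Real.log (T / 4) := Real.log_le_log hQr0 hQT
        rw [Real.log_div hT0.ne' (by norm_num)] at h1
        have h2 : (1 : ℝ) ≤ Real.log 4 := by
          have : Real.log 4 = 2 * Real.log 2 := by
            rw [show (4 : ℝ) = 2 ^ 2 by norm_num, Real.log_pow]; norm_num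
          have h3 := Real.log_two_gt_d9
          linarith
        linarith
      have hw : Real.exp (-(13 + 3 * (Real.log T - 1))) ≤ 1 / (400000 * (Q : ℝ) ^ 3) := by
        have h1 : Real.exp (-(13 + 3 * (Real.log T - 1))) ≤
            Real.exp (-(13 + 3 * Real.log Q)) := by
          apply Real.exp_le_exp.2
          linarith
        refine h1.trans ?_
        rw [Real.exp_neg, Real.exp_add, ← one_div]
        have h2 : Real.exp (3 * Real.log Q) = (Q : ℝ) ^ 3 := by
          have h9 := Real.exp_nat_mul (Real.log Q) 3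
          rw [Real.exp_log hQr0] at h9
          push_cast at h9
          exact h9
        rw [h2]
        apply one_div_le_one_div_of_le (by positivity)
        apply mul_le_mul_of_nonneg_right _ (by positivity)
        have h11 : (2.7 : ℝ) < Real.exp 1 := by
          have := Real.exp_one_gt_d9
          linarith
        have h12 : Real.exp 13 = Real.exp 1 ^ 13 := by
          rw [← Real.exp_nat_mul]; norm_num
        rw [h12]
        calc (400000 : ℝ) ≤ 2.7 ^ 13 := by norm_num
          _ ≤ _ := pow_le_pow_left₀ (by norm_num) h11.le 13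
      rcases Nat.eq_or_lt_of_le hT₁T with heq | hlt
      · refine ⟨N₁, ?_, ?_⟩
        · have h5 : 0 < (T : ℝ) ^ (2 + ε) := Real.rpow_pos_of_pos hT0 _
          have h6 : (0 : ℝ) ≤ q := Nat.cast_nonneg _
          linarith
        · rw [heq] at hb1
          refine le_trans (le_trans (Real.exp_le_exp.2 ?_) hw) hb1
          have h5 : 0 ≤ G C 0 0 * (q : ℝ) := by positivity
          nlinarith
      · set r : ℕ := T - T₁ with hr
        have hr1 : 1 ≤ r := by omega
        have hrT : r < T := by omega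
        obtain ⟨N₂, hN₂1, hN₂2⟩ := ih r hrT hr1
        have hrr : (r : ℝ) ≤ 3 * T / 4 := by
          have : 4 * r ≤ 3 * T := by omega
          have h2 : ((4 * r : ℕ) : ℝ) ≤ ((3 * T : ℕ) : ℝ) := by exact_mod_cast this
          push_cast at h2
          linarith
        have hr0 : (1 : ℝ) ≤ r := by exact_mod_cast hr1
        have hlogr0 : 0 ≤ Real.log r := Real.log_nonneg hr0
        have hlogr : Real.log r ≤ Real.log T - 1 / 4 := by
          have h1 : Real.log r ≤ Real.log (T * (3 / 4)) :=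
            Real.log_le_log (by linarith) (by linarith)
          rw [Real.log_mul hT0.ne' (by norm_num)] at h1
          have h2 : Real.log (3 / 4) ≤ 3 / 4 - 1 := Real.log_le_sub_one_of_pos (by norm_num)
          linarith
        refine ⟨N₁ + N₂, ?_, ?_⟩
        · have h1 : (r : ℝ) ^ (2 + ε) ≤ (T : ℝ) ^ (2 + ε) * (9 / 16) := by
            have h2 : (r : ℝ) ^ (2 + ε) ≤ ((T : ℝ) * (3 / 4)) ^ (2 + ε) :=
              Real.rpow_le_rpow (by linarith) (by linarith) (by linarith)
            rw [Real.mul_rpow hT0.le (by norm_num)] at h2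
            have h3 : (3 / 4 : ℝ) ^ (2 + ε) ≤ 9 / 16 := by
              have h4 : (3 / 4 : ℝ) ^ (2 + ε) ≤ (3 / 4 : ℝ) ^ (2 : ℝ) :=
                Real.rpow_le_rpow_of_exponent_ge (by norm_num) (by norm_num) (by linarith)
              refine h4.trans (le_of_eq ?_)
              rw [Real.rpow_two]
              norm_num
            have h5 : 0 < (T : ℝ) ^ (2 + ε) := Real.rpow_pos_of_pos hT0 _
            nlinarith
          have h5 : 0 < (T : ℝ) ^ (2 + ε) := Real.rpow_pos_of_pos hT0 _
          push_cast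
          linarith
        · have h1 := bT_mul (C := C) 0 (G C 0 0) N₁ N₂ T₁ r
          have h2 : T₁ + r = T := by omega
          rw [h2] at h1
          refine le_trans ?_ h1
          refine le_trans ?_ (mul_le_mul (hw.trans hb1) hN₂2 (Real.exp_pos _).le
            (bT_nonneg _ _ _ _))
          rw [← Real.exp_add]
          apply Real.exp_le_exp.2
          have h3 : (1 + Real.log r) ^ 2 ≤ (3 / 4 + Real.log T) ^ 2 := by
            apply pow_le_pow_left₀ (by linarith)
            linarith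
          nlinarith

end SawNu.SB
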