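import Pool.Agent.SawFlat.Len

/-!
The crossings in the encoding of the problem.
-/

set_option autoImplicit false

open Classical Filter

namespace SawNu.SB

open Pool.Agent.Lib.SAW.HW Pool.Agent.SawBr38 SawNu.SBR

variable {C : CL} {L : RLat}

lemma bT_eq_sum (g : ℝ) (N T : ℕ) : bT C 0 g N T =
    ∑ n ∈ Finset.range (N + 1),
      (((brs C n).filter (fun l => ht l = T)).card : ℝ) * Real.exp (-(g * n)) := by
  rw [bT, ← Finset.sum_fiberwise_of_maps_to (s := brh C N T) (t := Finset.range (N + 1))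
    (g := List.length)]
  · apply Finset.sum_congr rfl
    intro n hn
    rw [Finset.mem_range] at hn
    have h1 : (brh C N T).filter (fun l => l.length = n) =
        (brs C n).filter (fun l => ht l = T) := by
      ext l
      rw [Finset.mem_filter, Finset.mem_filter, mem_brh, mem_brs]
      constructor
      · rintro ⟨⟨a1, a2, a3⟩, a4⟩
        exact ⟨⟨a4, a2⟩, a3⟩
      · rintro ⟨⟨a1, a2⟩, a3⟩
        exact ⟨⟨by omega, a2, a3⟩, a1⟩
    rw [h1]
    rw [Finset.sum_congr rfl (g := fun _ => Real.exp (-(g * n)))]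
    · rw [Finset.sum_const, nsmul_eq_mul]
    · intro l hl
      rw [Finset.mem_filter, mem_brs] at hl
      rw [wg, fw, hl.1.1]
      congr 1
      ring
  · intro l hl
    rw [mem_brh] at hl
    rw [Finset.mem_range]
    omega

/-- the growth constant -/
theorem mu_eq (hM : Mirrored L) (hup : ∀ b, ∃ u ∈ L.S b, u.2 = 1) (hS : ∀ b, L.S b = C.S)
    (c : ℕ → ℕ) (hc : ∀ n, c n = (sas C n).card) (μ : ℝ)
    (hμ : μ = ⨅ n : {n : ℕ // 1 ≤ n}, ((c n.1 : ℝ) ^ ((1 : ℝ) / (n.1 : ℝ)))) :
    μ = Real.exp (G C 0 0) := by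
  have hlow : ∀ n : ℕ, 1 ≤ n → Real.exp (G C 0 0) ≤ (c n : ℝ) ^ ((1 : ℝ) / (n : ℝ)) := by
    intro n hn
    have hn0 : (0 : ℝ) < n := by exact_mod_cast hn
    have h := exp_G_le_Zw' (C := C) 0 0 n
    rw [Zw_zero_zero, ← hc] at h
    have h2 : Real.exp (G C 0 0) = Real.exp (G C 0 0 * n) ^ ((1 : ℝ) / (n : ℝ)) := by
      rw [← Real.exp_mul]
      congr 1
      field_simp
    rw [h2]
    exact Real.rpow_le_rpow (Real.exp_pos _).le h (by positivity)
  have : Nonempty {n : ℕ // 1 ≤ n} := ⟨⟨1, le_rfl⟩⟩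
  apply le_antisymm
  · obtain ⟨K, hK1, hK⟩ := exists_card_sas_le hM hup hS (δ := 1 / 2) (by norm_num)
    have hK0 : 0 < K := by linarith
    have hbd : ∀ n : ℕ, 1 ≤ n → μ ≤ Real.exp (Real.log K / n + G C 0 0 +
        (n : ℝ) ^ (-(1 / 2) : ℝ)) := by
      intro n hn
      have hn0 : (0 : ℝ) < n := by exact_mod_cast hn
      have h1 : μ ≤ (c n : ℝ) ^ ((1 : ℝ) / (n : ℝ)) := by
        rw [hμ]
        have hb : BddBelow (Set.range (fun n : {n : ℕ // 1 ≤ n} =>
            ((c n.1 : ℝ) ^ ((1 : ℝ) / (n.1 : ℝ))))) :=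
          ⟨0, by rintro x ⟨m, rfl⟩; positivity⟩
        exact ciInf_le hb ⟨n, hn⟩
      refine h1.trans ?_
      have h2 := hK n n le_rfl
      rw [← hc] at h2
      have h3 : (c n : ℝ) ^ ((1 : ℝ) / (n : ℝ)) ≤
          (K * Real.exp (G C 0 0 * n + (n : ℝ) ^ (1 / 2 : ℝ))) ^ ((1 : ℝ) / (n : ℝ)) :=
        Real.rpow_le_rpow (Nat.cast_nonneg _) h2 (by positivity)
      refine h3.trans (le_of_eq ?_)
      have h4 : K * Real.exp (G C 0 0 * n + (n : ℝ) ^ (1 / 2 : ℝ)) =
          Real.exp (Real.log K + (G C 0 0 * n + (n : ℝ) ^ (1 / 2 : ℝ))) := by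
        rw [Real.exp_add (Real.log K), Real.exp_log hK0]
      rw [h4, ← Real.exp_mul]
      congr 1
      have h5 : (n : ℝ) ^ (1 / 2 : ℝ) = (n : ℝ) ^ (-(1 / 2) : ℝ) * n := by
        nth_rw 3 [← Real.rpow_one (n : ℝ)]
        rw [← Real.rpow_add hn0]
        norm_num
      rw [h5]
      field_simp
      ring
    have ht : Tendsto (fun n : ℕ => Real.exp (Real.log K / n + G C 0 0 +
        (n : ℝ) ^ (-(1 / 2) : ℝ))) atTop (nhds (Real.exp (0 + G C 0 0 + 0))) := by
      apply (Real.continuous_exp.tendsto _).comp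
      apply Tendsto.add
      · apply Tendsto.add_const
        exact tendsto_const_nhds.div_atTop tendsto_natCast_atTop_atTop
      · exact (tendsto_rpow_neg_atTop (by norm_num : (0 : ℝ) < 1 / 2)).comp
          tendsto_natCast_atTop_atTop
    rw [zero_add, add_zero] at ht
    exact ge_of_tendsto ht (eventually_atTop.2 ⟨1, hbd⟩)
  · rw [hμ]
    exact le_ciInf (fun n => hlow n.1 n.2)

/-- crossings in the encoding of the problem -/
theorem card_crossing (hS : ∀ b, L.S b = C.S) {k : ℕ} (e : Enc L k) {f : ℕ → Fin k → ℂ}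
    (hf : ∀ i a, f i a = e.φ (e.st i.bodd a)) {h : ℝ} (hh : 0 < h)
    (him : ∀ p : Pt, (e.φ p).im = h * p.2) (n T : ℕ) :
    ((saw f n).filter (fun s => (pos f s n).im = h * T ∧
      ∀ j : ℕ, 1 ≤ j → j ≤ n → 0 < (pos f s j).im ∧ (pos f s j).im ≤ h * T)).card =
    ((brs C n).filter (fun l => ht l = T)).card := by
  have hLS : L.S = fun _ => C.S := funext hS
  have hpos : ∀ (s : Fin n → Fin k) (j : ℕ), (pos f s j).im = h * (ps (e.word s) j).2 := by
    intro s j
    rw [← him, e.word_ps s hf]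
    rfl
  have hcmp : ∀ a b : ℤ, h * (a : ℝ) ≤ h * (b : ℝ) ↔ a ≤ b := by
    intro a b
    rw [mul_le_mul_iff_right₀ hh]
    exact Int.cast_le
  have hpos' : ∀ a : ℤ, 0 < h * (a : ℝ) ↔ 0 < a := by
    intro a
    rw [mul_pos_iff_of_pos_left hh]
    exact Int.cast_pos
  have hsaw : ∀ s : Fin n → Fin k, s ∈ saw f n ↔ SA (e.word s) := by
    intro s
    rw [saw, Finset.mem_filter, ← e.word_sa s hf]
    simp only [Finset.mem_univ, true_and]
    rfl
  apply Finset.card_bij (fun s _ => e.word s)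
  · intro s hs
    rw [Finset.mem_filter, hsaw] at hs
    obtain ⟨h1, h2, h3⟩ := hs
    have hlen := e.word_length s
    rw [Finset.mem_filter, mem_brs]
    rw [hpos] at h2
    have h2' : (ps (e.word s) n).2 = (T : ℤ) := by
      have : h * ((ps (e.word s) n).2 : ℝ) = h * ((T : ℤ) : ℝ) := by push_cast; exact h2
      have h4 := mul_left_cancel₀ hh.ne' this
      exact_mod_cast h4
    have hps : ps (e.word s) n = (e.word s).sum := by
      have h4 := ps_length (e.word s)
      rwa [hlen] at h4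
    have hht : ht (e.word s) = T := by
      rw [hps] at h2'
      exact h2'
    have htw := e.word_tw s
    rw [hLS, TW_const] at htw
    refine ⟨⟨hlen, ⟨htw, h1, ?_, ?_⟩⟩, hht⟩
    · intro i hi1 hi2
      rw [hlen] at hi2
      have h5 := (h3 i hi1 hi2).1
      rw [hpos, hpos'] at h5
      exact h5
    · intro i hi
      rw [hlen] at hi
      rcases Nat.eq_zero_or_pos i with hi0 | hi0
      · subst hi0
        rw [ps_zero]
        have : (e.word s).sum.2 = (T : ℤ) := hht
        rw [this]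
        simp
      · have h5 := (h3 i hi0 hi).2
        rw [hpos] at h5
        have h6 : h * ((ps (e.word s) i).2 : ℝ) ≤ h * ((T : ℤ) : ℝ) := by push_cast; exact h5
        rw [hcmp] at h6
        have : (e.word s).sum.2 = (T : ℤ) := hht
        rw [this]
        exact h6
  · intro s _ s' _ hss
    exact e.word_inj hss
  · intro l hl
    rw [Finset.mem_filter, mem_brs] at hl
    obtain ⟨⟨h1, h2⟩, h3⟩ := hl
    have htw : TW L.S false l := by
      rw [hLS, TW_const]
      exact h2.wd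
    obtain ⟨s, hs⟩ := e.word_surj h1 htw
    refine ⟨s, ?_, hs⟩
    have hsum : ps l n = l.sum := by
      rw [← h1]
      exact ps_length _
    rw [Finset.mem_filter, hsaw, hs]
    refine ⟨h2.sa, ?_, ?_⟩
    · rw [hpos, hs, hsum]
      have : l.sum.2 = (T : ℤ) := h3
      rw [this]
      push_cast
      ring
    · intro j hj1 hj2
      rw [hpos, hs]
      constructor
      · rw [hpos']
        exact h2.up j hj1 (by omega)
      · have h5 := h2.dn j (by omega)
        have : l.sum.2 = (T : ℤ) := h3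
        rw [this] at h5
        have h6 := (hcmp _ _).2 h5
        push_cast at h6
        exact h6

end SawNu.SB
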