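import Pool.Agent.SawFlat.Cross

/-!
Lengths of the critical crossings: both bounds.
-/

set_option autoImplicit false

open Classical Filter

namespace SawNu.SB

open Pool.Agent.Lib.SAW.HW Pool.Agent.SawBr38 SawNu.SBR

variable {C : CL} {L : RLat}

/-- crossings of polynomial weight and at most quadratic length -/
theorem crossing_lower (hM : Mirrored L) (hup : ∀ b, ∃ u ∈ L.S b, u.2 = 1)
    (hS : ∀ b, L.S b = C.S) (R : Rot L) {ε : ℝ} (hε : 0 < ε) :
    ∀ᶠ Q : ℕ in atTop, ∃ T : ℕ, Q < T ∧ T ≤ 4 * Q ∧ ∀ N : ℕ, (Q : ℝ) ^ (2 + ε) ≤ N →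
      1 / (400000 * (Q : ℝ) ^ 3) ≤ bT C 0 (G C 0 0) N T := by
  set η : ℝ := ε / 2 with hη
  have hη0 : 0 < η := by rw [hη]; linarith
  set ε₁ : ℝ := η / (2 * (2 + η)) with hε₁
  have hε₁0 : 0 < ε₁ := by rw [hε₁]; positivity
  obtain ⟨n₀, hn₀⟩ := eventually_atTop.1 (mass_lower hM hup hS R hε₁0)
  have hexp : (2 + η) * (-(1 / 2) + ε₁) = -1 := by
    rw [hε₁]
    field_simp
    ring
  have t1 : Tendsto (fun n : ℕ => (n : ℝ)) atTop atTop := tendsto_natCast_atTop_atTop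
  have hbig : ∀ᶠ Q : ℕ in atTop, (n₀ : ℝ) ≤ (Q : ℝ) ^ (2 + η) :=
    t1.eventually ((tendsto_rpow_atTop (by linarith : 0 < 2 + η)).eventually_ge_atTop _)
  have hlen : ∀ᶠ Q : ℕ in atTop, 2 * (3 * Real.log Q + 14) ≤ (Q : ℝ) ^ η := by
    have o1 : (fun x : ℝ => Real.log x) =o[atTop] fun x => x ^ η := isLittleO_log_rpow_atTop hη0
    have o2 : (fun _ : ℝ => (28 : ℝ)) =o[atTop] fun x => x ^ η :=
      Asymptotics.isLittleO_const_left.2 (Or.inr (tendsto_norm_atTop_atTop.comp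
        (tendsto_rpow_atTop hη0)))
    have o3 := (o1.const_mul_left 6).add o2
    have h5 := o3.def (show (0 : ℝ) < 1 by norm_num)
    have h6 : ∀ᶠ x : ℝ in atTop, 2 * (3 * Real.log x + 14) ≤ x ^ η := by
      filter_upwards [h5, eventually_ge_atTop (1 : ℝ)] with x hx hx1
      rw [Real.norm_of_nonneg (Real.rpow_nonneg (by linarith) _), Real.norm_eq_abs, one_mul] at hx
      have h8 := (abs_le.1 hx).2
      linarith
    exact t1.eventually h6
  filter_upwards [hbig, hlen, eventually_ge_atTop 1] with Q h1 h2 hQ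
  have hQ1 : (1 : ℝ) ≤ Q := by exact_mod_cast hQ
  have hQ0 : (0 : ℝ) < Q := by linarith
  have hlogQ : 0 ≤ Real.log Q := Real.log_nonneg hQ1
  set n : ℕ := ⌈(Q : ℝ) ^ (2 + η)⌉₊ with hn
  have hnle : (Q : ℝ) ^ (2 + η) ≤ n := Nat.le_ceil _
  have hpos : 0 < (Q : ℝ) ^ (2 + η) := Real.rpow_pos_of_pos hQ0 _
  have hnn : n₀ ≤ n := by
    have : (n₀ : ℝ) ≤ n := h1.trans hnle
    exact_mod_cast this
  have hm := hn₀ n hnn
  have hv : (n : ℝ) ^ (-(1 / 2) + ε₁) ≤ 1 / (Q : ℝ) := by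
    have h3 : (n : ℝ) ^ (-(1 / 2) + ε₁) ≤ ((Q : ℝ) ^ (2 + η)) ^ (-(1 / 2) + ε₁) := by
      apply Real.rpow_le_rpow_of_nonpos hpos hnle
      by_contra hcon
      push Not at hcon
      have : 0 < (2 + η) * (-(1 / 2) + ε₁) := mul_pos (by linarith) hcon
      linarith
    rw [← Real.rpow_mul hQ0.le, hexp, Real.rpow_neg_one] at h3
    rw [one_div (Q : ℝ)]
    exact h3
  have hG : G C 0 ((n : ℝ) ^ (-(1 / 2) + ε₁)) ≤ G C 0 (1 / (Q : ℝ)) := G_mono_v _ hv
  have hm2 : 1 ≤ (G C 0 (1 / Q) - G C 0 0) * n :=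
    hm.trans (mul_le_mul_of_nonneg_right (by linarith) (Nat.cast_nonneg _))
  set K : ℕ := ⌈3 * Real.log Q + 13⌉₊ with hK
  have hK1 : 3 * Real.log Q + 13 ≤ K := Nat.le_ceil _
  have hK2 : (K : ℝ) ≤ 3 * Real.log Q + 14 := by
    have := Nat.ceil_lt_add_one (show 0 ≤ 3 * Real.log Q + 13 by linarith)
    linarith
  obtain ⟨T, hT1, hT2, hT3⟩ := exists_crossing (C := C) Q hQ n K hm2 hK1
  refine ⟨T, hT1, hT2, ?_⟩
  intro N hN
  refine hT3.trans (bT_mono_len _ _ ?_ _)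
  have h3 : ((n * K : ℕ) : ℝ) ≤ N := by
    refine le_trans ?_ hN
    push_cast
    have hn2 : (n : ℝ) ≤ 2 * (Q : ℝ) ^ (2 + η) := by
      have h4 := Nat.ceil_lt_add_one hpos.le
      have h5 : 1 ≤ (Q : ℝ) ^ (2 + η) := Real.one_le_rpow hQ1 (by linarith)
      linarith
    calc (n : ℝ) * K ≤ (2 * (Q : ℝ) ^ (2 + η)) * (3 * Real.log Q + 14) :=
          mul_le_mul hn2 hK2 (Nat.cast_nonneg _) (by positivity)
      _ = (Q : ℝ) ^ (2 + η) * (2 * (3 * Real.log Q + 14)) := by ring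
      _ ≤ (Q : ℝ) ^ (2 + η) * (Q : ℝ) ^ η := mul_le_mul_of_nonneg_left h2 hpos.le
      _ = (Q : ℝ) ^ (2 + ε) := by
          rw [← Real.rpow_add hQ0]
          congr 1
          rw [hη]
          ring
  exact_mod_cast h3

/-- crossings of almost linear length are rare -/
theorem crossing_upper
    (hR : ∀ β : ℝ, 0 < β → β < 1 / 2 → RateGain (fun x => (G C 0 x - G C 0 0) / x) β)
    {A β : ℝ} (hA : 0 < A) (h0 : 0 < β) (h1 : β < 1 / 2) :
    ∀ᶠ T : ℕ in atTop, ∀ N : ℕ, (N : ℝ) ≤ T * Real.exp (Real.log T ^ β) →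
      bT C 0 (G C 0 0) N T ≤ (T : ℝ) ^ (-A) := by
  set β' : ℝ := (β + 1 / 2) / 2 with hβ'
  have hb1 : β < β' := by rw [hβ']; linarith
  have hb2 : β' < 1 / 2 := by rw [hβ']; linarith
  have hb0 : 0 < β' := by linarith
  obtain ⟨K, hK0, hK⟩ := hR β' hb0 hb2
  -- asymptotics in `u = log T`
  have e1 : ∀ᶠ u : ℝ in atTop, (A + 1) * K *
      Real.exp (u ^ β - (u / 2) ^ β') ≤ 1 := by
    have o1 : (fun x : ℝ => x ^ β) =o[atTop] fun x => x ^ β' := isLittleO_rpow_rpow_atTop' hb1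
    have t2 : Tendsto (fun u : ℝ => u ^ β') atTop atTop := tendsto_rpow_atTop hb0
    have hc : (0 : ℝ) < (1 / 2) ^ β' / 2 := by positivity
    have h5 := o1.def hc
    have h6 : ∀ᶠ u : ℝ in atTop, Real.log ((A + 1) * K) / ((1 / 2) ^ β' / 2) ≤ u ^ β' :=
      t2.eventually_ge_atTop _
    filter_upwards [h5, h6, eventually_ge_atTop (1 : ℝ)] with u hu1 hu2 hu3
    have hu0 : 0 ≤ u := by linarith
    rw [Real.norm_of_nonneg (Real.rpow_nonneg hu0 _), Real.norm_of_nonneg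
      (Real.rpow_nonneg hu0 _)] at hu1
    have h7 : (u / 2) ^ β' = (1 / 2) ^ β' * u ^ β' := by
      rw [← Real.mul_rpow (by norm_num) hu0]
      congr 1
      ring
    have h8 : Real.log ((A + 1) * K) ≤ (1 / 2) ^ β' / 2 * u ^ β' := by
      rw [div_le_iff₀ hc] at hu2
      linarith
    have h9 : u ^ β - (u / 2) ^ β' ≤ -Real.log ((A + 1) * K) := by
      rw [h7]
      have : (1 / 2 : ℝ) ^ β' * u ^ β' = (1 / 2) ^ β' / 2 * u ^ β' + (1 / 2) ^ β' / 2 * u ^ β' := by
        ring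
      rw [this]
      linarith
    have hAK : 0 < (A + 1) * K := by positivity
    calc (A + 1) * K * Real.exp (u ^ β - (u / 2) ^ β')
        ≤ (A + 1) * K * Real.exp (-Real.log ((A + 1) * K)) :=
          mul_le_mul_of_nonneg_left (Real.exp_le_exp.2 h9) hAK.le
      _ = 1 := by
          rw [Real.exp_neg, Real.exp_log hAK]
          exact mul_inv_cancel₀ hAK.ne'
  have e2 : ∀ᶠ u : ℝ in atTop, Real.log ((A + 1) * u) ≤ u / 2 := by
    have o1 : (fun x : ℝ => Real.log x) =o[atTop] fun x => x := Real.isLittleO_log_id_atTop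
    have h5 := o1.def (show (0 : ℝ) < 1 / 4 by norm_num)
    filter_upwards [h5, eventually_ge_atTop (1 : ℝ),
      eventually_ge_atTop (4 * Real.log (A + 1))] with u hu1 hu2 hu3
    rw [Real.norm_of_nonneg (by linarith : (0 : ℝ) ≤ u), Real.norm_eq_abs] at hu1
    have h6 := (abs_le.1 hu1).2
    rw [Real.log_mul (by linarith) (by linarith)]
    linarith
  have e3 : ∀ᶠ u : ℝ in atTop, (A + 1) * u / Real.exp u ≤ 1 / 2 := by
    have h5 : Tendsto (fun u : ℝ => u ^ 1 * Real.exp (-u)) atTop (nhds 0) :=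
      Real.tendsto_pow_mul_exp_neg_atTop_nhds_zero 1
    have h6 : ∀ᶠ u : ℝ in atTop, u ^ 1 * Real.exp (-u) < 1 / (2 * (A + 1)) :=
      h5.eventually (gt_mem_nhds (by positivity))
    filter_upwards [h6] with u hu
    rw [pow_one, Real.exp_neg] at hu
    rw [lt_div_iff₀ (by positivity)] at hu
    rw [div_eq_mul_inv]
    linarith
  have t1 : Tendsto (fun n : ℕ => Real.log (n : ℝ)) atTop atTop :=
    Real.tendsto_log_atTop.comp tendsto_natCast_atTop_atTop
  filter_upwards [t1.eventually e1, t1.eventually e2, t1.eventually e3,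
    t1.eventually (eventually_ge_atTop (1 : ℝ)), eventually_ge_atTop 2] with T g1 g2 g3 g4 hT
  intro N hN
  have hT0 : (0 : ℝ) < T := by
    have : (2 : ℝ) ≤ T := by exact_mod_cast hT
    linarith
  have hexpT : Real.exp (Real.log T) = T := Real.exp_log hT0
  set u : ℝ := Real.log T with hu
  have hu0 : 0 < u := by linarith
  set v : ℝ := (A + 1) * u / T with hv
  have hv0 : 0 < v := by rw [hv]; positivity
  have hv2 : v ≤ 1 / 2 := by rw [hv]; rw [hexpT] at g3; exact g3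
  have h2 := bT_short (C := C) v hv0.le N T
  have h3 := hK v hv0 hv2
  simp only at h3
  rw [div_le_iff₀ hv0] at h3
  -- `log (1/v) ≥ u/2`
  have h4 : u / 2 ≤ Real.log (1 / v) := by
    have h5 : Real.log (1 / v) = u - Real.log ((A + 1) * u) := by
      rw [hv, one_div_div, Real.log_div hT0.ne' (by positivity)]
    rw [h5]
    linarith
  have h5 : (u / 2) ^ β' ≤ Real.log (1 / v) ^ β' :=
    Real.rpow_le_rpow (by linarith) h4 hb0.le
  have h6 : (G C 0 v - G C 0 0) * N ≤ u := by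
    calc (G C 0 v - G C 0 0) * N ≤ (K * Real.exp (-(Real.log (1 / v) ^ β')) * v) * N :=
          mul_le_mul_of_nonneg_right h3 (Nat.cast_nonneg _)
      _ ≤ (K * Real.exp (-((u / 2) ^ β')) * v) * (T * Real.exp (u ^ β)) := by
          apply mul_le_mul _ hN (Nat.cast_nonneg _) (by positivity)
          apply mul_le_mul_of_nonneg_right _ hv0.le
          apply mul_le_mul_of_nonneg_left _ hK0.le
          apply Real.exp_le_exp.2
          linarith
      _ = u * ((A + 1) * K * (Real.exp (u ^ β) * Real.exp (-((u / 2) ^ β')))) := by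
          rw [hv]
          field_simp
      _ = u * ((A + 1) * K * Real.exp (u ^ β - (u / 2) ^ β')) := by
          rw [← Real.exp_add, sub_eq_add_neg]
      _ ≤ u * 1 := mul_le_mul_of_nonneg_left g1 hu0.le
      _ = u := mul_one u
  refine h2.trans ?_
  have h7 : v * T = (A + 1) * u := by
    rw [hv]
    field_simp
  rw [h7, Real.rpow_def_of_pos hT0]
  apply Real.exp_le_exp.2
  rw [← hu]
  linarith

end SawNu.SB
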