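import Pool.Agent.SawFlat.Div
import Pool.Agent.SawBr38.Polygon
import Pool.Agent.Saw39.Pack
import Pool.Agent.Saw39.SB.Encoding

/-!
A lower bound for the free energy of the tilted bridges: `G(0,v) - G(0,0) ≥ v^(2+ε)` for small `v`.
-/

set_option autoImplicit false

open Classical Filter

namespace SawNu.SB

open Pool.Agent.Lib.SAW.HW Pool.Agent.SawBr38

variable {C : CL} {L : RLat}

lemma BW_iff {l : List Pt} (hl : Wd C l) : BW l ↔ Brc C l := by
  constructor
  · rintro ⟨h1, h2⟩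
    refine ⟨hl, h1, fun i h3 h4 => (h2 i h3 h4).1, ?_⟩
    intro i hi
    rcases Nat.eq_zero_or_pos i with h | h
    · subst h
      rw [ps_zero]
      rcases Nat.eq_zero_or_pos l.length with h5 | h5
      · rw [List.length_eq_zero_iff] at h5
        subst h5
        simp
      · have := (h2 l.length h5 le_rfl).1
        rw [ps_length] at this
        exact this.le
    · have := (h2 i h hi).2
      rwa [ps_length] at this
  · intro h
    refine ⟨h.sa, fun i h3 h4 => ⟨h.up i h3 h4, ?_⟩⟩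
    rw [ps_length]
    exact h.dn i h4

lemma Bs_eq_brs (hM : Mirrored L) (hS : ∀ b, L.S b = C.S) (n : ℕ) : Bs L n = brs C n := by
  ext l
  rw [mem_Bs hM, mem_brs]
  have h : L.S = fun _ => C.S := funext hS
  rw [h, SawNu.SB.TW_const]
  constructor
  · rintro ⟨h1, h2, h3⟩
    exact ⟨h1, (BW_iff h2).1 h3⟩
  · rintro ⟨h1, h2⟩
    exact ⟨h1, h2.wd, (BW_iff h2.wd).2 h2⟩

lemma card_brs_le (n : ℕ) : ((brs C n).card : ℝ) ≤ Real.exp (G C 0 0 * n) := by
  have h := Zb_le (C := C) 0 0 n
  have h2 : Zb C 0 0 n = ((brs C n).card : ℝ) := by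
    rw [Zb]
    have h : ∀ l ∈ brs C n, Real.exp (fw 0 0 l) = 1 := by
      intro l _; simp [fw]
    rw [Finset.sum_congr rfl h, Finset.sum_const, nsmul_eq_mul, mul_one]
  rwa [h2] at h

/-- the number of walks -/
theorem exists_card_sas_le (hM : Mirrored L) (hup : ∀ b, ∃ u ∈ L.S b, u.2 = 1)
    (hS : ∀ b, L.S b = C.S) {δ : ℝ} (hδ : 0 < δ) :
    ∃ K : ℝ, 1 ≤ K ∧ ∀ n N : ℕ, n ≤ N → ((sas C n).card : ℝ) ≤
      K * Real.exp (G C 0 0 * n + (N : ℝ) ^ δ) := by
  obtain ⟨n₀, h₀⟩ := eventually_atTop.1 (walk_le_bridge_L hM hup δ hδ)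
  have hG : 0 ≤ G C 0 0 := G_nonneg 0 le_rfl
  refine ⟨1 + ∑ k ∈ Finset.range n₀, ((sas C k).card : ℝ), ?_, ?_⟩
  · have : 0 ≤ ∑ k ∈ Finset.range n₀, ((sas C k).card : ℝ) :=
      Finset.sum_nonneg (fun _ _ => Nat.cast_nonneg _)
    linarith
  · intro n N hnN
    have hs : 0 ≤ ∑ k ∈ Finset.range n₀, ((sas C k).card : ℝ) :=
      Finset.sum_nonneg (fun _ _ => Nat.cast_nonneg _)
    have hpow : (n : ℝ) ^ δ ≤ (N : ℝ) ^ δ :=
      Real.rpow_le_rpow (Nat.cast_nonneg _) (by exact_mod_cast hnN) hδ.le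
    have hE : 1 ≤ Real.exp (G C 0 0 * n + (N : ℝ) ^ δ) := by
      apply Real.one_le_exp
      positivity
    rcases lt_or_ge n n₀ with h | h
    · have h1 : ((sas C n).card : ℝ) ≤ ∑ k ∈ Finset.range n₀, ((sas C k).card : ℝ) :=
        Finset.single_le_sum (f := fun k => ((sas C k).card : ℝ))
          (fun _ _ => Nat.cast_nonneg _) (Finset.mem_range.2 h)
      nlinarith
    · have h1 := h₀ n h
      rw [WS_eq_sas hS] at h1
      have h2 : (((sysL L).b n : ℕ) : ℝ) ≤ Real.exp (G C 0 0 * n) := by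
        have h3 : (sysL L).b n = (brs C n).card := by
          rw [← card_image_brSet]
          show (Bs L n).card = _
          rw [Bs_eq_brs hM hS]
        rw [h3]
        exact card_brs_le n
      calc ((sas C n).card : ℝ) ≤ Real.exp ((n : ℝ) ^ δ) * ((sysL L).b n : ℕ) := h1
        _ ≤ Real.exp ((N : ℝ) ^ δ) * Real.exp (G C 0 0 * n) :=
            mul_le_mul (Real.exp_le_exp.2 hpow) h2 (Nat.cast_nonneg _) (Real.exp_pos _).le
        _ = 1 * Real.exp (G C 0 0 * n + (N : ℝ) ^ δ) := by rw [← Real.exp_add, one_mul, add_comm]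
        _ ≤ _ := mul_le_mul_of_nonneg_right (by linarith) (Real.exp_pos _).le

/-- the bridges of length `j` and height at least `x` -/
noncomputable def brx (C : CL) (j x : ℕ) : Finset (List Pt) :=
  (brs C j).filter (fun l => (x : ℤ) ≤ ht l)

lemma card_brx_le {v : ℝ} (hv : 0 ≤ v) (j x : ℕ) :
    ((brx C j x).card : ℝ) ≤ Real.exp (G C 0 v * j - v * x) := by
  have h1 : ((brx C j x).card : ℝ) * Real.exp (v * x) ≤ Zb C 0 v j := by
    rw [← nsmul_eq_mul, ← Finset.sum_const, Zb]
    calc ∑ _l ∈ brx C j x, Real.exp (v * x) ≤ ∑ l ∈ brx C j x, Real.exp (fw 0 v l) := by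
          apply Finset.sum_le_sum
          intro l hl
          rw [brx, Finset.mem_filter] at hl
          apply Real.exp_le_exp.2
          have h2 : (x : ℝ) ≤ (ht l : ℝ) := by exact_mod_cast hl.2
          rw [fw, zero_mul, zero_add]
          exact mul_le_mul_of_nonneg_left h2 hv
      _ ≤ _ := Finset.sum_le_sum_of_subset_of_nonneg (Finset.filter_subset _ _)
          (fun _ _ _ => (Real.exp_pos _).le)
  rw [Real.exp_sub, le_div_iff₀ (Real.exp_pos _)]
  exact h1.trans (Zb_le 0 v j)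

/-- pairs of lengths -/
def ixs (n : ℕ) : Finset (ℕ × ℕ) :=
  (Finset.range (n + 1) ×ˢ Finset.range (n + 1)).filter (fun z => z.1 + z.2 ≤ n)

lemma card_ixs_le (n : ℕ) : ((ixs n).card : ℝ) ≤ ((n : ℝ) + 1) ^ 2 := by
  have h : (ixs n).card ≤ (n + 1) * (n + 1) := by
    refine (Finset.card_filter_le _ _).trans ?_
    rw [Finset.card_product, Finset.card_range]
  have h2 : ((ixs n).card : ℝ) ≤ (n + 1) * (n + 1) := by exact_mod_cast h
  rw [sq]
  exact h2

/-- walks reaching the level `x` contain a bridge of height at least `x` -/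
lemma card_reach_le (n x : ℕ) :
    (((sas C n).filter (fun l => (x : ℤ) ≤ mx l)).card : ℝ) ≤
      ∑ z ∈ ixs n,
        ((sas C z.1).card : ℝ) * (brx C z.2 x).card * (sas C (n - z.1 - z.2)).card := by
  have hR : ∑ z ∈ ixs n,
        ((sas C z.1).card : ℝ) * (brx C z.2 x).card * (sas C (n - z.1 - z.2)).card =
      (((ixs n).sigma
        (fun z => (sas C z.1 ×ˢ brx C z.2 x) ×ˢ sas C (n - z.1 - z.2))).card : ℝ) := by
    rw [Finset.card_sigma]
    push_cast
    apply Finset.sum_congr rfl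
    intro z _
    simp only [Finset.card_product]
    push_cast
    ring
  rw [hR]
  norm_cast
  apply Finset.card_le_card_of_injOn (fun l =>
    (⟨(tip ((l.take (tip l)).map rhoH), tip l - tip ((l.take (tip l)).map rhoH)),
      ((l.take (tip l)).take (tip ((l.take (tip l)).map rhoH)),
       (l.take (tip l)).drop (tip ((l.take (tip l)).map rhoH))), l.drop (tip l)⟩ :
      Σ _ : ℕ × ℕ, (List Pt × List Pt) × List Pt))
  · intro l hl
    rw [Finset.mem_coe, Finset.mem_filter, mem_sas] at hl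
    obtain ⟨⟨h1, h2, h3⟩, h4⟩ := hl
    have htl := tip_le l
    set t1 := tip l with ht1
    have hlen1 : (l.take t1).length = t1 := by rw [List.length_take]; omega
    have h3' := h3
    rw [← List.take_append_drop t1 l] at h3'
    have hsa1 : SA (l.take t1) := h3'.left
    have hsa2 : SA (l.drop t1) := h3'.right
    have ht0l : tip ((l.take t1).map rhoH) ≤ t1 := by
      have := tip_le ((l.take t1).map rhoH)
      rwa [List.length_map, hlen1] at this
    set t0 := tip ((l.take t1).map rhoH) with ht0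
    obtain ⟨b1, b2, b3⟩ := drop_spec (h2.take t1) hsa1
    rw [← ht0] at b1 b2 b3
    have hsa1' := hsa1
    rw [← List.take_append_drop t0 (l.take t1)] at hsa1'
    have hps : ∀ i ≤ t1, ps (l.take t1) i = ps l i := by
      intro i hi
      rw [ps_take, min_eq_left hi]
    have hmin : (ps l t0).2 ≤ 0 := by
      have := le_mx ((l.take t1).map rhoH) (i := 0) (Nat.zero_le _)
      rw [mx, ps_map_rho, ps_map_rho, rhoH_snd, rhoH_snd, ← ht0, ps_zero, hps t0 ht0l] at this
      simp only [Prod.snd_zero] at this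
      omega
    have hsum : ((l.take t1).drop t0).sum = ps l t1 - ps l t0 := by
      rw [sum_drop, hps t0 ht0l]
      rfl
    have hdn : WDn ((l.take t1).drop t0) := by
      intro i hi
      rw [List.length_drop, hlen1] at hi
      rw [ps_drop _ _ (by rw [hlen1]; exact ht0l), hps t0 ht0l, hps (t0 + i) (by omega), hsum,
        Prod.snd_sub, Prod.snd_sub]
      have := le_mx l (i := t0 + i) (by omega)
      rw [mx, ← ht1] at this
      omega
    rw [Finset.mem_coe, Finset.mem_sigma, ixs, Finset.mem_filter, Finset.mem_product,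
      Finset.mem_range, Finset.mem_range,
      Finset.mem_product, Finset.mem_product, mem_sas, brx, Finset.mem_filter, mem_brs, mem_sas]
    simp only [← ht1, ← ht0]
    refine ⟨⟨⟨by omega, by omega⟩, by omega⟩, ⟨⟨?_, (h2.take t1).take t0, hsa1'.left⟩,
      ⟨?_, ⟨b1, b2, b3, hdn⟩⟩, ?_⟩, ?_, h2.drop t1, hsa2⟩
    · rw [List.length_take, hlen1]; omega
    · rw [List.length_drop, hlen1]
    · simp only [ht]
      rw [hsum, Prod.snd_sub]
      rw [mx, ← ht1] at h4
      omega
    · rw [List.length_drop]; omega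
  · intro l hl l' hl' heq
    simp only [Sigma.mk.injEq, heq_eq_eq, Prod.mk.injEq] at heq
    obtain ⟨-, ⟨e1, e2⟩, e3⟩ := heq
    have e4 : l.take (tip l) = l'.take (tip l') := by
      rw [← List.take_append_drop (tip ((l.take (tip l)).map rhoH)) (l.take (tip l)), e1, e2,
        List.take_append_drop]
    rw [← List.take_append_drop (tip l) l, e4, e3, List.take_append_drop]

/-- the basic inequality -/
theorem mass_ineq (hM : Mirrored L) (hup : ∀ b, ∃ u ∈ L.S b, u.2 = 1)
    (hS : ∀ b, L.S b = C.S) (R : Rot L) {δ : ℝ} (hδ : 0 < δ) :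
    ∃ K : ℝ, 1 ≤ K ∧ ∀ n x : ℕ, (2 * x + 1) ^ 2 ≤ n + 1 → ∀ v : ℝ, 0 ≤ v →
      1 ≤ 4 * ((n : ℝ) + 1) ^ 2 * K ^ 2 *
        Real.exp (2 * (n : ℝ) ^ δ + (G C 0 v - G C 0 0) * n - v * x) := by
  obtain ⟨K, hK1, hK⟩ := exists_card_sas_le hM hup hS hδ
  refine ⟨K, hK1, ?_⟩
  intro n x hx v hv
  have hK0 : 0 ≤ K := by linarith
  have hl : 0 ≤ G C 0 v - G C 0 0 := sub_nonneg.2 (G_mono_v 0 hv)
  set l := G C 0 v - G C 0 0 with hldef
  have h1 := R.packing n x hx
  rw [WS_eq_sas hS] at h1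
  have h1' : ((sas C n).card : ℝ) ≤
      4 * (((sas C n).filter (fun l => (x : ℤ) ≤ mx l)).card : ℝ) := by exact_mod_cast h1
  have h2 := card_reach_le (C := C) n x
  have h3 : ∑ z ∈ ixs n,
        ((sas C z.1).card : ℝ) * (brx C z.2 x).card * (sas C (n - z.1 - z.2)).card ≤
      (ixs n).card •
        (K ^ 2 * Real.exp (G C 0 0 * n + (2 * (n : ℝ) ^ δ + l * n - v * x))) := by
    apply Finset.sum_le_card_nsmul
    rintro ⟨i, j⟩ hz
    rw [ixs, Finset.mem_filter, Finset.mem_product, Finset.mem_range, Finset.mem_range] at hz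
    obtain ⟨⟨hi, hj⟩, hij⟩ := hz
    simp only at hi hj hij ⊢
    have a1 := hK i n (by omega)
    have a2 := card_brx_le (C := C) hv j x
    have a3 := hK (n - i - j) n (by omega)
    calc ((sas C i).card : ℝ) * (brx C j x).card * (sas C (n - i - j)).card
        ≤ (K * Real.exp (G C 0 0 * i + (n : ℝ) ^ δ)) * Real.exp (G C 0 v * j - v * x) *
          (K * Real.exp (G C 0 0 * (n - i - j : ℕ) + (n : ℝ) ^ δ)) := by
          apply mul_le_mul _ a3 (Nat.cast_nonneg _) (by positivity)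
          exact mul_le_mul a1 a2 (Nat.cast_nonneg _) (by positivity)
      _ = K ^ 2 * (Real.exp (G C 0 0 * i + (n : ℝ) ^ δ) * Real.exp (G C 0 v * j - v * x) *
          Real.exp (G C 0 0 * (n - i - j : ℕ) + (n : ℝ) ^ δ)) := by ring
      _ = K ^ 2 * Real.exp ((G C 0 0 * i + (n : ℝ) ^ δ) + (G C 0 v * j - v * x) +
          (G C 0 0 * (n - i - j : ℕ) + (n : ℝ) ^ δ)) := by
          rw [← Real.exp_add, ← Real.exp_add]
      _ ≤ _ := by
          apply mul_le_mul_of_nonneg_left _ (by positivity)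
          apply Real.exp_le_exp.2
          have e1 : ((n - i - j : ℕ) : ℝ) = n - i - j := by
            rw [Nat.cast_sub (by omega), Nat.cast_sub (by omega)]
          have e2 : (j : ℝ) ≤ n := by exact_mod_cast (by omega : j ≤ n)
          have e3 : l * j ≤ l * n := mul_le_mul_of_nonneg_left e2 hl
          rw [e1]
          have e4 : G C 0 v = G C 0 0 + l := by rw [hldef]; ring
          rw [e4]
          nlinarith
  rw [nsmul_eq_mul] at h3
  have h4 : Real.exp (G C 0 0 * n) ≤ ((sas C n).card : ℝ) := by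
    have h := exp_G_le_Zw' (C := C) 0 0 n
    rwa [Zw_zero_zero] at h
  have h5 : ((ixs n).card : ℝ) *
        (K ^ 2 * Real.exp (G C 0 0 * n + (2 * (n : ℝ) ^ δ + l * n - v * x))) ≤
      ((n : ℝ) + 1) ^ 2 *
        (K ^ 2 * Real.exp (G C 0 0 * n + (2 * (n : ℝ) ^ δ + l * n - v * x))) :=
    mul_le_mul_of_nonneg_right (card_ixs_le n) (by positivity)
  have h6 : Real.exp (G C 0 0 * n) ≤ Real.exp (G C 0 0 * n) *
      (4 * ((n : ℝ) + 1) ^ 2 * K ^ 2 * Real.exp (2 * (n : ℝ) ^ δ + l * n - v * x)) := by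
    calc Real.exp (G C 0 0 * n) ≤ 4 * (((n : ℝ) + 1) ^ 2 *
        (K ^ 2 * Real.exp (G C 0 0 * n + (2 * (n : ℝ) ^ δ + l * n - v * x)))) := by linarith
      _ = _ := by rw [Real.exp_add]; ring
  have h7 := (le_mul_iff_one_le_right (Real.exp_pos _)).1 h6
  exact h7

end SawNu.SB
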