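import Pool.Agent.SawFlat.Lower
import Pool.Agent.Saw39.SBR.RateDef

/-!
Weights and lengths of the critical crossings.
-/

set_option autoImplicit false

open Classical Filter

namespace SawNu.SB

open Pool.Agent.Lib.SAW.HW Pool.Agent.SawBr38 SawNu.SBR

variable {C : CL} {L : RLat}

lemma wg_change (v v' g g' : ℝ) (l : List Pt) :
    wg 0 v' g' l = wg 0 v g l * Real.exp ((v' - v) * ht l - (g' - g) * l.length) := by
  rw [wg, wg, ← Real.exp_add]
  congr 1
  simp only [fw]
  ring

lemma bT_mono_len (v g : ℝ) {N M : ℕ} (h : N ≤ M) (T : ℕ) : bT C v g N T ≤ bT C v g M T := by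
  apply Finset.sum_le_sum_of_subset_of_nonneg
  · intro l hl
    rw [mem_brh] at hl ⊢
    exact ⟨hl.1.trans h, hl.2⟩
  · intro _ _ _
    exact (wg_pos _ _ _ _).le

/-- short crossings are rare -/
theorem bT_short (v : ℝ) (hv : 0 ≤ v) (N T : ℕ) :
    bT C 0 (G C 0 0) N T ≤ Real.exp ((G C 0 v - G C 0 0) * N - v * T) := by
  have hl : 0 ≤ G C 0 v - G C 0 0 := sub_nonneg.2 (G_mono_v 0 hv)
  calc bT C 0 (G C 0 0) N T ≤ ∑ l ∈ brh C N T,
        Real.exp ((G C 0 v - G C 0 0) * N - v * T) * wg 0 v (G C 0 v) l := by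
        apply Finset.sum_le_sum
        intro l hl'
        rw [mem_brh] at hl'
        rw [wg_change v 0 (G C 0 v) (G C 0 0) l, mul_comm]
        apply mul_le_mul_of_nonneg_right _ (wg_pos _ _ _ _).le
        apply Real.exp_le_exp.2
        have h1 : (l.length : ℝ) ≤ N := by exact_mod_cast hl'.1
        have h2 : (ht l : ℝ) = T := by
          have := hl'.2.2
          exact_mod_cast this
        rw [h2]
        have h3 := mul_le_mul_of_nonneg_left h1 hl
        linarith
    _ = Real.exp ((G C 0 v - G C 0 0) * N - v * T) * bT C v (G C 0 v) N T := by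
        rw [bT, Finset.mul_sum]
    _ ≤ Real.exp ((G C 0 v - G C 0 0) * N - v * T) * 1 :=
        mul_le_mul_of_nonneg_left (bT_le_one v N T) (Real.exp_pos _).le
    _ = _ := mul_one _

/-- crossings of polynomial weight and controlled length, finite form -/
theorem exists_crossing (Q : ℕ) (hQ : 1 ≤ Q) (n K : ℕ)
    (hn : 1 ≤ (G C 0 (1 / Q) - G C 0 0) * n) (hK : 3 * Real.log Q + 13 ≤ K) :
    ∃ T : ℕ, Q < T ∧ T ≤ 4 * Q ∧ 1 / (400000 * (Q : ℝ) ^ 3) ≤ bT C 0 (G C 0 0) (n * K) T := by
  have hQ1 : (1 : ℝ) ≤ Q := by exact_mod_cast hQ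
  have hQ0 : (0 : ℝ) < Q := by linarith
  set v : ℝ := 1 / Q with hv
  have hv0 : 0 ≤ v := by rw [hv]; positivity
  obtain ⟨N, T, h1, h2, h3⟩ := exists_bT (C := C) v hv0 Q hQ
  refine ⟨T, h1, h2, ?_⟩
  have hl : 0 ≤ G C 0 v - G C 0 0 := sub_nonneg.2 (G_mono_v 0 hv0)
  have hvT : v * T ≤ 4 := by
    rw [hv, one_div, inv_mul_le_iff₀ hQ0]
    have : (T : ℝ) ≤ 4 * Q := by exact_mod_cast h2
    linarith
  -- split by the length
  have h4 : bT C v (G C 0 v) N T ≤ Real.exp 4 * bT C 0 (G C 0 0) (n * K) T +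
      Real.exp (4 - K) * bT C 0 (G C 0 0) N T := by
    rw [bT, bT, bT, Finset.mul_sum, Finset.mul_sum,
      ← Finset.sum_filter_add_sum_filter_not (brh C N T) (fun l => l.length ≤ n * K)]
    apply add_le_add
    · calc ∑ l ∈ (brh C N T).filter (fun l => l.length ≤ n * K), wg 0 v (G C 0 v) l
          ≤ ∑ l ∈ (brh C N T).filter (fun l => l.length ≤ n * K),
            Real.exp 4 * wg 0 0 (G C 0 0) l := by
            apply Finset.sum_le_sum
            intro l hl'
            rw [Finset.mem_filter, mem_brh] at hl'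
            rw [wg_change 0 v (G C 0 0) (G C 0 v) l, mul_comm]
            apply mul_le_mul_of_nonneg_right _ (wg_pos _ _ _ _).le
            apply Real.exp_le_exp.2
            have h5 : (ht l : ℝ) = T := by
              have := hl'.1.2.2
              exact_mod_cast this
            rw [h5, sub_zero]
            have h6 : 0 ≤ (G C 0 v - G C 0 0) * (l.length : ℝ) :=
              mul_nonneg hl (Nat.cast_nonneg _)
            linarith
        _ ≤ _ := by
            apply Finset.sum_le_sum_of_subset_of_nonneg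
            · intro l hl'
              rw [Finset.mem_filter, mem_brh] at hl'
              rw [mem_brh]
              exact ⟨hl'.2, hl'.1.2⟩
            · intro _ _ _
              exact mul_nonneg (Real.exp_pos _).le (wg_pos _ _ _ _).le
    · calc ∑ l ∈ (brh C N T).filter (fun l => ¬ l.length ≤ n * K), wg 0 v (G C 0 v) l
          ≤ ∑ l ∈ (brh C N T).filter (fun l => ¬ l.length ≤ n * K),
            Real.exp (4 - K) * wg 0 0 (G C 0 0) l := by
            apply Finset.sum_le_sum
            intro l hl'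
            rw [Finset.mem_filter, mem_brh] at hl'
            rw [wg_change 0 v (G C 0 0) (G C 0 v) l, mul_comm]
            apply mul_le_mul_of_nonneg_right _ (wg_pos _ _ _ _).le
            apply Real.exp_le_exp.2
            have h5 : (ht l : ℝ) = T := by
              have := hl'.1.2.2
              exact_mod_cast this
            rw [h5, sub_zero]
            have h6 : ((n * K : ℕ) : ℝ) ≤ (l.length : ℝ) := by
              exact_mod_cast (not_le.1 hl'.2).le
            have h7 := mul_le_mul_of_nonneg_left h6 hl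
            have h8 : (K : ℝ) ≤ (G C 0 v - G C 0 0) * ((n * K : ℕ) : ℝ) := by
              push_cast
              have : (0 : ℝ) ≤ K := Nat.cast_nonneg _
              nlinarith
            linarith
        _ ≤ _ := by
            apply Finset.sum_le_sum_of_subset_of_nonneg (Finset.filter_subset _ _)
            intro _ _ _
            exact mul_nonneg (Real.exp_pos _).le (wg_pos _ _ _ _).le
  have h5 : bT C 0 (G C 0 0) N T ≤ 1 := bT_le_one 0 N T
  have h6 : Real.exp (4 - K) ≤ 1 / (6400 * (Q : ℝ) ^ 3) := by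
    have h7 : Real.exp (4 - K) ≤ Real.exp (-9 - 3 * Real.log Q) := by
      apply Real.exp_le_exp.2
      linarith
    have h8 : Real.exp (-9 - 3 * Real.log Q) = 1 / (Real.exp 9 * (Q : ℝ) ^ 3) := by
      rw [sub_eq_add_neg, Real.exp_add, Real.exp_neg, Real.exp_neg]
      have : Real.exp (3 * Real.log Q) = (Q : ℝ) ^ 3 := by
        have h9 := Real.exp_nat_mul (Real.log Q) 3
        rw [Real.exp_log hQ0] at h9
        push_cast at h9
        exact h9
      rw [this]
      field_simp
    have h9 : (6400 : ℝ) ≤ Real.exp 9 := by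
      have h10 := Real.add_one_lt_exp (x := (1 : ℝ)) (by norm_num)
      have h11 : (2.7 : ℝ) < Real.exp 1 := by
        have := Real.exp_one_gt_d9
        linarith
      have h12 : Real.exp 9 = Real.exp 1 ^ 9 := by
        rw [← Real.exp_nat_mul]; norm_num
      rw [h12]
      calc (6400 : ℝ) ≤ 2.7 ^ 9 := by norm_num
        _ ≤ _ := pow_le_pow_left₀ (by norm_num) h11.le 9
    rw [h8] at h7
    refine h7.trans ?_
    apply one_div_le_one_div_of_le (by positivity)
    exact mul_le_mul_of_nonneg_right h9 (by positivity)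
  have h7 : Real.exp 4 ≤ 55 := by
    have h11 : Real.exp 1 < (2.7183 : ℝ) := by
      have := Real.exp_one_lt_d9
      linarith
    have h12 : Real.exp 4 = Real.exp 1 ^ 4 := by
      rw [← Real.exp_nat_mul]; norm_num
    rw [h12]
    calc Real.exp 1 ^ 4 ≤ 2.7183 ^ 4 := pow_le_pow_left₀ (Real.exp_pos _).le h11.le 4
      _ ≤ 55 := by norm_num
  have h8 : 0 ≤ bT C 0 (G C 0 0) (n * K) T := bT_nonneg _ _ _ _
  have h9 : Real.exp 4 * bT C 0 (G C 0 0) (n * K) T ≤ 55 * bT C 0 (G C 0 0) (n * K) T :=
    mul_le_mul_of_nonneg_right h7 h8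
  have h10 : Real.exp (4 - K) * bT C 0 (G C 0 0) N T ≤ 1 / (6400 * (Q : ℝ) ^ 3) := by
    calc _ ≤ 1 / (6400 * (Q : ℝ) ^ 3) * 1 :=
          mul_le_mul h6 h5 (bT_nonneg _ _ _ _) (by positivity)
      _ = _ := mul_one _
  have h11 : 1 / (3200 * (Q : ℝ) ^ 3) = 1 / (6400 * (Q : ℝ) ^ 3) + 1 / (6400 * (Q : ℝ) ^ 3) := by
    field_simp
    norm_num
  have h12 : 1 / (400000 * (Q : ℝ) ^ 3) ≤ 1 / 55 * (1 / (6400 * (Q : ℝ) ^ 3)) := by
    rw [one_div_mul_one_div]
    apply one_div_le_one_div_of_le (by positivity)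
    have : 0 < (Q : ℝ) ^ 3 := by positivity
    nlinarith
  linarith

end SawNu.SB
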