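import Pool.Agent.SawFlat.Enc
import Pool.Agent.SawFlat.All
import Pool.Agent.Saw39.SBR.GapsW
import Pool.Agent.Saw39.SBR.ChainW
import Pool.Agent.Saw39.SBR.IterW
import Pool.Agent.SawStrip.Ana
import Pool.Agent.SawStrip.Cross
import Pool.Agent.SawStrip.Len

/-!
The lengths of the critical crossings by self-avoiding walks on the square and the triangular
lattice.

`b n T` is the number of `n`-step self-avoiding walks from the origin that stay, after time `0`, at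
heights in `(0, T]` (in rows of the lattice) and end in the row `T`; `μ` is the growth constant, and
a crossing with `n` steps has the critical weight `μ ^ (-n)`. For all large `T`:

* the crossings of height `T` and length at most `T ^ (2 + ε)` have total weight at least
  `exp (-25 (log T) ^ 2)`;
* the window `(T, 4 T]` contains a height for which this weight is at least `1 / (400000 T ^ 3)`;
* the crossings of height `T` and length at most `T exp ((log T) ^ β)`, `β < 1 / 2`, have total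
  weight at most `exp (-T ^ (1 - δ))`;
* on the square lattice there is `K` such that for all large `T` the crossings of height `T` and
  length at least `T ^ K` have total weight at most `exp (-T)`.
-/

set_option autoImplicit false
open scoped Classical

namespace Pool.Agent.SawFlat.CrossingLengthOld

open SawNu SawNu.SB SawNu.SBR Pool.Agent.Lib.SAW.HW Pool.Agent.SawBr38 Filter

theorem main_of {C : CL} {L : RLat} (hM : Mirrored L) (hup : ∀ b, ∃ u ∈ L.S b, u.2 = 1)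
    (hS : ∀ b, L.S b = C.S) (R : Rot L)
    (hR : ∀ β : ℝ, 0 < β → β < 1 / 2 → RateGain (fun x => (G C 0 x - G C 0 0) / x) β)
    {k : ℕ} (e : Enc L k) {f : ℕ → Fin k → ℂ}
    (hf : ∀ i a, f i a = e.φ (e.st i.bodd a)) {h : ℝ} (hh : 0 < h)
    (him : ∀ p : Pt, (e.φ p).im = h * p.2)
    (c : ℕ → ℕ) (b : ℕ → ℕ → ℕ) (μ : ℝ)
    (hc : ∀ n, c n = (saw f n).card)
    (hb : ∀ n T, b n T = ((saw f n).filter (fun s => (pos f s n).im = h * T ∧
      ∀ j : ℕ, 1 ≤ j → j ≤ n → 0 < (pos f s j).im ∧ (pos f s j).im ≤ h * T)).card)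
    (hμ : μ = ⨅ n : {n : ℕ // 1 ≤ n}, ((c n.1 : ℝ) ^ ((1 : ℝ) / (n.1 : ℝ))))
    (ε δ β : ℝ) (hε : 0 < ε) (hδ : 0 < δ) (h0 : 0 < β) (h1 : β < 1 / 2) :
    ∃ T₀ : ℕ, ∀ T : ℕ, T₀ ≤ T →
      Real.exp (-(25 * (Real.log T) ^ 2)) ≤
        ∑ n ∈ Finset.range (⌊(T : ℝ) ^ (2 + ε)⌋₊ + 1), (b n T : ℝ) / μ ^ n ∧
      (∃ T' : ℕ, T < T' ∧ T' ≤ 4 * T ∧
        1 / (400000 * (T : ℝ) ^ 3) ≤
          ∑ n ∈ Finset.range (⌊(T : ℝ) ^ (2 + ε)⌋₊ + 1), (b n T' : ℝ) / μ ^ n) ∧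
      ∑ n ∈ Finset.range (⌊(T : ℝ) * Real.exp ((Real.log T) ^ β)⌋₊ + 1), (b n T : ℝ) / μ ^ n ≤
        Real.exp (-((T : ℝ) ^ (1 - δ))) := by
  have hcs : ∀ n, c n = (sas C n).card := by
    intro n
    rw [hc, ← WS_eq_sas hS n]
    have h2 := e.bridge_card hf n
    rw [← h2]
    apply congrArg Finset.card
    ext s
    simp only [saw, Finset.mem_filter, Finset.mem_univ, true_and]
    rfl
  have hmu := mu_eq hM hup hS c hcs μ hμ
  have hsum : ∀ N T : ℕ, ∑ n ∈ Finset.range (N + 1), (b n T : ℝ) / μ ^ n =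
      bT C 0 (G C 0 0) N T := by
    intro N T
    rw [bT_eq_sum]
    apply Finset.sum_congr rfl
    intro n _
    rw [hb, card_crossing hS e hf hh him n T, hmu, div_eq_mul_inv, ← Real.exp_nat_mul,
      ← Real.exp_neg, mul_comm (n : ℝ)]
  obtain ⟨Q₁, hQ₁⟩ := eventually_atTop.1
    (crossing_lower hM hup hS R (show 0 < ε / 2 by linarith))
  obtain ⟨Q₂, hQ₂⟩ := eventually_atTop.1 (crossing_upper' hR hδ h0 h1)
  obtain ⟨K₀, M, hK₀, hall⟩ := crossing_all hM hup hS R (show 0 < ε / 2 by linarith)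
  have t1 : Tendsto (fun n : ℕ => (n : ℝ)) atTop atTop := tendsto_natCast_atTop_atTop
  have hfl : ∀ᶠ T : ℕ in atTop,
      (T : ℝ) ^ (2 + ε / 2) + M ≤ (⌊(T : ℝ) ^ (2 + ε)⌋₊ : ℝ) := by
    have h2 : ∀ᶠ T : ℕ in atTop, (M : ℝ) + 2 ≤ (T : ℝ) ^ (ε / 2) :=
      t1.eventually ((tendsto_rpow_atTop (by linarith : 0 < ε / 2)).eventually_ge_atTop _)
    filter_upwards [h2, eventually_ge_atTop 1] with T h3 hT
    have hT1 : (1 : ℝ) ≤ T := by exact_mod_cast hT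
    have hT0 : (0 : ℝ) < T := by linarith
    have h4 : (T : ℝ) ^ (2 + ε) = (T : ℝ) ^ (2 + ε / 2) * (T : ℝ) ^ (ε / 2) := by
      rw [← Real.rpow_add hT0]
      congr 1
      ring
    have h5 : 1 ≤ (T : ℝ) ^ (2 + ε / 2) := Real.one_le_rpow hT1 (by linarith)
    have h6 := Nat.lt_floor_add_one ((T : ℝ) ^ (2 + ε))
    have h7 : (0 : ℝ) ≤ M := Nat.cast_nonneg _
    nlinarith
  have hlg : ∀ᶠ T : ℕ in atTop,
      20 * (1 + Real.log T) ^ 2 + K₀ ≤ 25 * (Real.log T) ^ 2 := by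
    have h2 : ∀ᶠ T : ℕ in atTop, 10 + K₀ ≤ Real.log (T : ℝ) :=
      (Real.tendsto_log_atTop.comp t1).eventually (eventually_ge_atTop _)
    filter_upwards [h2] with T h3
    nlinarith
  obtain ⟨Q₃, hQ₃⟩ := eventually_atTop.1 hfl
  obtain ⟨Q₄, hQ₄⟩ := eventually_atTop.1 hlg
  refine ⟨max (max Q₁ Q₂) (max (max Q₃ Q₄) 1), ?_⟩
  intro T hT
  have g1 : Q₁ ≤ T := (le_max_left _ _).trans ((le_max_left _ _).trans hT)
  have g2 : Q₂ ≤ T := (le_max_right _ _).trans ((le_max_left _ _).trans hT)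
  have g3 : Q₃ ≤ T := (le_max_left _ _).trans ((le_max_left _ _).trans ((le_max_right _ _).trans hT))
  have g4 : Q₄ ≤ T := (le_max_right _ _).trans ((le_max_left _ _).trans ((le_max_right _ _).trans hT))
  have g5 : 1 ≤ T := (le_max_right _ _).trans ((le_max_right _ _).trans hT)
  have hfl' := hQ₃ T g3
  have hM0 : (0 : ℝ) ≤ M := Nat.cast_nonneg _
  refine ⟨?_, ?_, ?_⟩
  · obtain ⟨N, hN1, hN2⟩ := hall T g5
    rw [hsum]
    refine (le_trans (Real.exp_le_exp.2 ?_) hN2).trans (bT_mono_len _ _ ?_ _)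
    · have := hQ₄ T g4
      linarith
    · have : (N : ℝ) ≤ (⌊(T : ℝ) ^ (2 + ε)⌋₊ : ℝ) := hN1.trans hfl'
      exact_mod_cast this
  · obtain ⟨T', hT1, hT2, hT3⟩ := hQ₁ T g1
    refine ⟨T', hT1, hT2, ?_⟩
    rw [hsum]
    exact hT3 _ (by linarith)
  · rw [hsum]
    exact hQ₂ T g2 _ (Nat.floor_le (by positivity))

/-- the upper bound for the length on the square lattice -/
theorem tail_sq {f : ℕ → Fin 4 → ℂ} (hf : ∀ i a, f i a = Complex.I ^ (a : ℕ))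
    (c : ℕ → ℕ) (b : ℕ → ℕ → ℕ) (μ : ℝ)
    (hc : ∀ n, c n = (saw f n).card)
    (hb : ∀ n T, b n T = ((saw f n).filter (fun s => (pos f s n).im = 1 * T ∧
      ∀ j : ℕ, 1 ≤ j → j ≤ n → 0 < (pos f s j).im ∧ (pos f s j).im ≤ 1 * T)).card)
    (hμ : μ = ⨅ n : {n : ℕ // 1 ≤ n}, ((c n.1 : ℝ) ^ ((1 : ℝ) / (n.1 : ℝ)))) :
    ∃ K : ℝ, 0 < K ∧ ∃ T₀ : ℕ, ∀ T : ℕ, T₀ ≤ T → ∀ M : ℕ,
      ∑ n ∈ Finset.Ico ⌈(T : ℝ) ^ K⌉₊ M, (b n T : ℝ) / μ ^ n ≤ Real.exp (-(T : ℝ)) := by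
  have hfe : ∀ i a, f i a = encSq.φ (encSq.st i.bodd a) := fun i a => by rw [hf, sq_enc]
  have hcs : ∀ n, c n = (sas sqC n).card := by
    intro n
    rw [hc, ← WS_eq_sas (L := sqL) (C := sqC) (fun _ => rfl) n]
    have h2 := encSq.bridge_card hfe n
    rw [← h2]
    apply congrArg Finset.card
    ext s
    simp only [saw, Finset.mem_filter, Finset.mem_univ, true_and]
    rfl
  have hmu := mu_eq (C := sqC) (L := sqL) mirrored_sq (fun b => ⟨(0, 1), by simp [sqL], rfl⟩)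
    (fun _ => rfl) c hcs μ hμ
  rw [← Pool.Agent.SawStrip.mu_eq_G] at hmu
  obtain ⟨K₁, hK₁, h1⟩ := Pool.Agent.SawStrip.S_le
  obtain ⟨T₀, hT₀⟩ := Pool.Agent.SawStrip.tail_of K₁ hK₁ h1
  refine ⟨2 * K₁ + 2, by positivity, T₀, fun T hT M => ?_⟩
  refine le_trans (Finset.sum_le_sum fun n _ => ?_) (hT₀ T hT M)
  rw [hmu]
  apply div_le_div_of_nonneg_right _ (pow_nonneg Pool.Agent.SawKes.mu_pos.le n)
  rw [hb, card_crossing (C := sqC) (L := sqL) (fun _ => rfl) encSq hfe one_pos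
    (fun p => by simp [encSq, phiSq]) n T]
  exact_mod_cast Pool.Agent.SawStrip.brs_le n T

theorem result :
    ∀ (k : ℕ) (f : ℕ → Fin k → ℂ) (h : ℝ),
      ((k = 4 ∧ h = 1 ∧ ∀ i a, f i a = Complex.I ^ (a : ℕ)) ∨
       (k = 6 ∧ h = Real.sqrt 3 / 2 ∧
         ∀ i a, f i a = Complex.exp (2 * (Real.pi : ℂ) * Complex.I * ((a : ℕ) : ℂ) / 6))) →
      ∀ (c : ℕ → ℕ) (b : ℕ → ℕ → ℕ) (μ : ℝ),
      (∀ n, c n = (SawNu.saw f n).card) →
      (∀ n T, b n T = ((SawNu.saw f n).filter (fun s => (SawNu.pos f s n).im = h * T ∧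
        ∀ j : ℕ, 1 ≤ j → j ≤ n →
          0 < (SawNu.pos f s j).im ∧ (SawNu.pos f s j).im ≤ h * T)).card) →
      (μ = ⨅ n : {n : ℕ // 1 ≤ n}, ((c n.1 : ℝ) ^ ((1 : ℝ) / (n.1 : ℝ)))) →
      (∀ ε δ β : ℝ, 0 < ε → 0 < δ → 0 < β → β < 1 / 2 →
      ∃ T₀ : ℕ, ∀ T : ℕ, T₀ ≤ T →
        Real.exp (-(25 * (Real.log T) ^ 2)) ≤
          ∑ n ∈ Finset.range (⌊(T : ℝ) ^ (2 + ε)⌋₊ + 1), (b n T : ℝ) / μ ^ n ∧
        (∃ T' : ℕ, T < T' ∧ T' ≤ 4 * T ∧
          1 / (400000 * (T : ℝ) ^ 3) ≤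
            ∑ n ∈ Finset.range (⌊(T : ℝ) ^ (2 + ε)⌋₊ + 1), (b n T' : ℝ) / μ ^ n) ∧
        ∑ n ∈ Finset.range (⌊(T : ℝ) * Real.exp ((Real.log T) ^ β)⌋₊ + 1), (b n T : ℝ) / μ ^ n ≤
          Real.exp (-((T : ℝ) ^ (1 - δ)))) ∧
      (k = 4 → ∃ K : ℝ, 0 < K ∧ ∃ T₀ : ℕ, ∀ T : ℕ, T₀ ≤ T → ∀ M : ℕ,
        ∑ n ∈ Finset.Ico ⌈(T : ℝ) ^ K⌉₊ M, (b n T : ℝ) / μ ^ n ≤ Real.exp (-(T : ℝ))) := by
  intro k f h hk c b μ hc hb hμ
  rcases hk with ⟨rfl, rfl, hf⟩ | ⟨rfl, rfl, hf⟩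
  · refine ⟨fun ε δ β hε hδ h0 h1 => ?_, fun _ => tail_sq hf c b μ hc hb hμ⟩
    exact main_of (C := sqC) (L := sqL) mirrored_sq (fun b => ⟨(0, 1), by simp [sqL], rfl⟩)
      (fun _ => rfl) sqRot
      (rateGain_of_iter (fun _ => SawNu.SB.sa_le_one _) (fun _ _ => SawNu.SB.sa_mono _)
        (fun _ h0 h1 => SawNu.SBR.stepW_sq (SawNu.SBR.rw_Wr h0 (by linarith))
          (SawNu.SBR.gapW_sq h0 h1) (SawNu.SBR.gapW_dsq h0 h1)))
      encSq (fun i a => by rw [hf, sq_enc]) one_pos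
      (fun p => by simp [encSq, phiSq]) c b μ hc hb hμ ε δ β hε hδ h0 h1
  · refine ⟨fun ε δ β hε hδ h0 h1 => ?_, fun h6 => absurd h6 (by norm_num)⟩
    exact main_of (C := triC) (L := triL) mirrored_tri (fun b => ⟨(1, 1), by simp [triL], rfl⟩)
      (fun _ => rfl) triRot
      (rateGain_of_iter (fun _ => SawNu.SB.sa_le_one _) (fun _ _ => SawNu.SB.sa_mono _)
        (fun _ h0 h1 => SawNu.SBR.stepW_tri (SawNu.SBR.rw_Wr h0 (by linarith))
          (SawNu.SBR.gapW_tri h0 h1)))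
      encTri (fun i a => by rw [hf, tri_enc]) (by positivity)
      (fun p => by simp [encTri, phiTri, mul_comm]) c b μ hc hb hμ ε δ β hε hδ h0 h1

end Pool.Agent.SawFlat.CrossingLengthOld
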