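import Pool.Agent.SawFlat.Flat

/-!
No flat zones: for every `Q ≥ 1` there is a height `T` in `(Q, 4 Q]` such that the critical weight
of the bridges of height `T` is at least `1/(3200 Q^3)`.
-/

set_option autoImplicit false

open Classical

namespace SawNu.SB

variable {C : CL}

lemma Zw_pos (u v : ℝ) (n : ℕ) : 0 < Zw C u v n := (Zb_pos u v n).trans_le (Zb_le_Zw u v n)

lemma Zw_mul (u v : ℝ) (m n : ℕ) : Zw C u v (m + n) ≤ Zw C u v m * Zw C u v n := by
  rw [Zw, Zw, Zw, Finset.sum_mul_sum, ← Finset.sum_product']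
  apply sum_le_of_inj (fun l => (l.take m, l.drop m))
  · intro l hl
    rw [mem_sas] at hl
    obtain ⟨h1, h2, h3⟩ := hl
    rw [Finset.mem_product, mem_sas, mem_sas]
    rw [← List.take_append_drop m l] at h3
    refine ⟨⟨?_, h2.take m, h3.left⟩, ?_, h2.drop m, h3.right⟩
    · simp only; rw [List.length_take]; omega
    · simp only; rw [List.length_drop]; omega
  · intro l _ l' _ heq
    simp only [Prod.mk.injEq] at heq
    rw [← List.take_append_drop m l, heq.1, heq.2, List.take_append_drop]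
  · intro l _
    simp only
    rw [← Real.exp_add, ← fw_append, List.take_append_drop]
  · intro _ _
    positivity

lemma Zw_pow (u v : ℝ) (n k : ℕ) : Zw C u v (k * n) ≤ Zw C u v n ^ k := by
  induction k with
  | zero =>
    rw [Nat.zero_mul, pow_zero]
    have h : sas C 0 ⊆ {[]} := by
      intro l hl
      rw [mem_sas, List.length_eq_zero_iff] at hl
      rw [Finset.mem_singleton]
      exact hl.1
    calc Zw C u v 0 ≤ ∑ l ∈ ({[]} : Finset (List Pt)), Real.exp (fw u v l) :=
          Finset.sum_le_sum_of_subset_of_nonneg h (fun _ _ _ => (Real.exp_pos _).le)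
      _ = 1 := by simp
  | succ k ih =>
    rw [Nat.succ_mul, pow_succ]
    exact (Zw_mul u v _ _).trans (mul_le_mul_of_nonneg_right ih (Zw_pos u v n).le)

/-- the growth rate of bridges is a lower bound for all walks -/
theorem exp_G_le_Zw' (u v : ℝ) (n : ℕ) : Real.exp (G C u v * n) ≤ Zw C u v n := by
  rcases Nat.eq_zero_or_pos n with h0 | h0
  · subst h0
    have := Zb_le_Zw (C := C) u v 0
    rw [Zb_zero] at this
    simpa using this
  · have hn : (0 : ℝ) < n := by exact_mod_cast h0
    have key : G C u v ≤ Real.log (Zw C u v n) / n := by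
      apply ciSup_le
      intro m
      have h1 : Zb C u v (m + 1) ^ n ≤ Zw C u v n ^ (m + 1) := by
        calc Zb C u v (m + 1) ^ n ≤ Zb C u v (n * (m + 1)) := Zb_pow_le u v _ _
          _ ≤ Zw C u v (n * (m + 1)) := Zb_le_Zw u v _
          _ ≤ Zw C u v n ^ (m + 1) := by
              rw [mul_comm n]
              exact Zw_pow u v n (m + 1)
      have h2 := Real.log_le_log (pow_pos (Zb_pos u v (m + 1)) n) h1
      rw [Real.log_pow, Real.log_pow] at h2
      rw [div_le_div_iff₀ (by positivity) hn]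
      push_cast at h2
      linarith
    rw [le_div_iff₀ hn] at key
    rw [← Real.le_log_iff_exp_le (Zw_pos u v n)]
    exact key

/-- all walks of length at most `N` and their two half-space parts -/
lemma sum_Zw_le (v g : ℝ) (hv : 0 ≤ v) (N : ℕ) :
    ∑ n ∈ Finset.range (N + 1), Zw C 0 v n * Real.exp (-(g * n)) ≤
      Real.exp (v + g) * ((∑ l ∈ hsl C (N + 1) (N + 1), wg 0 v g l) *
        ∑ l ∈ hsl C (N + 1) (N + 1), wg 0 v g l) := by
  have h1 : ∑ n ∈ Finset.range (N + 1), Zw C 0 v n * Real.exp (-(g * n)) =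
      ∑ z ∈ (Finset.range (N + 1)).sigma (fun n => sas C n), wg 0 v g z.2 := by
    rw [Finset.sum_sigma]
    apply Finset.sum_congr rfl
    intro n _
    rw [Zw, Finset.sum_mul]
    apply Finset.sum_congr rfl
    intro l hl
    rw [mem_sas] at hl
    simp only
    rw [wg, hl.1, ← Real.exp_add, sub_eq_add_neg]
  rw [h1, Finset.sum_mul_sum, ← Finset.sum_product', Finset.mul_sum]
  apply sum_le_of_inj (fun z : Σ _ : ℕ, List Pt => (fpart C z.2, z.2.drop (tip (z.2.map rhoH))))
  · rintro ⟨n, l⟩ hz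
    rw [Finset.mem_sigma, Finset.mem_range, mem_sas] at hz
    obtain ⟨hn, h2, h3, h4⟩ := hz
    simp only at hn h2 h3 h4
    obtain ⟨a1, a2, a3, a4⟩ := fpart_spec h3 h4
    obtain ⟨b1, b2, b3⟩ := drop_spec h3 h4
    have htl : tip (l.map rhoH) ≤ l.length := by
      have := tip_le (l.map rhoH); rwa [List.length_map] at this
    rw [Finset.mem_product, mem_hsl, mem_hsl]
    simp only
    refine ⟨⟨by omega, a2, a3, a4, ?_⟩, ?_, b1, b2, b3, ?_⟩
    · intro i hi
      have := lev_le_time a2 hi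
      push_cast
      omega
    · rw [List.length_drop]; omega
    · intro i hi
      have := lev_le_time b1 hi
      rw [List.length_drop] at hi
      push_cast
      omega
  · rintro ⟨n, l⟩ hz ⟨n', l'⟩ hz' heq
    rw [Finset.mem_coe, Finset.mem_sigma, Finset.mem_range, mem_sas] at hz hz'
    simp only [Prod.mk.injEq] at heq hz hz'
    obtain ⟨e2, e3⟩ := heq
    have e0 := congrArg List.length e2
    rw [(fpart_spec hz.2.2.1 hz.2.2.2).1, (fpart_spec hz'.2.2.1 hz'.2.2.2).1] at e0
    rw [fpart, fpart, List.cons.injEq] at e2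
    have e4 := List.reverse_injective e2.2
    have e5 := List.map_injective_iff.2 (fun _ _ => tauH_inj) e4
    have e6 := List.map_injective_iff.2 (fun _ _ => rhoH_inj) e5
    have e7 : l = l' := by
      rw [← List.take_append_drop (tip (l.map rhoH)) l, e6, e3, List.take_append_drop]
    have e8 : n = n' := by rw [← hz.2.1, ← hz'.2.1, e7]
    rw [e7, e8]
  · rintro ⟨n, l⟩ hz
    rw [Finset.mem_sigma, Finset.mem_range, mem_sas] at hz
    obtain ⟨hn, h2, h3, h4⟩ := hz
    simp only at hn h2 h3 h4 ⊢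
    obtain ⟨a1, a2, a3, a4⟩ := fpart_spec h3 h4
    have htl : tip (l.map rhoH) ≤ l.length := by
      have := tip_le (l.map rhoH); rwa [List.length_map] at this
    have h5 := fw_fpart (C := C) 0 v hv (l := l)
    rw [abs_zero, mul_zero, zero_add, neg_zero] at h5
    rw [wg, wg, wg, ← Real.exp_add, ← Real.exp_add]
    apply Real.exp_le_exp.2
    have hlen : (l.length : ℝ) + 1 = ((fpart C l).length : ℝ) +
        ((l.drop (tip (l.map rhoH))).length : ℝ) := by
      have : l.length + 1 = (fpart C l).length + (l.drop (tip (l.map rhoH))).length := by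
        rw [a1, List.length_drop]; omega
      exact_mod_cast this
    have h6 : g * (l.length : ℝ) = g * ((fpart C l).length : ℝ) +
        g * ((l.drop (tip (l.map rhoH))).length : ℝ) - g := by
      have : (l.length : ℝ) = ((fpart C l).length : ℝ) +
        ((l.drop (tip (l.map rhoH))).length : ℝ) - 1 := by linarith
      rw [this]
      ring
    rw [h6]
    linarith
  · intro _ _
    exact mul_nonneg (Real.exp_pos _).le (mul_nonneg (wg_pos _ _ _ _).le (wg_pos _ _ _ _).le)

/-- divergence of the sum of the critical weights -/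
theorem log_le_sum_bT (v : ℝ) (hv : 0 ≤ v) (N : ℕ) :
    (N : ℝ) + 1 ≤ Real.exp (v + G C 0 v + 2 * ∑ m ∈ Finset.range (N + 1),
      bT C v (G C 0 v) (N + 1) (m + 1)) := by
  set g := G C 0 v with hg
  have h1 : (N : ℝ) + 1 ≤ ∑ n ∈ Finset.range (N + 1), Zw C 0 v n * Real.exp (-(g * n)) := by
    calc (N : ℝ) + 1 = ∑ _n ∈ Finset.range (N + 1), (1 : ℝ) := by simp
      _ ≤ _ := by
          apply Finset.sum_le_sum
          intro n _
          calc (1 : ℝ) = Real.exp (g * n) * Real.exp (-(g * n)) := by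
                rw [← Real.exp_add]; simp
            _ ≤ _ := mul_le_mul_of_nonneg_right (exp_G_le_Zw' 0 v n) (Real.exp_pos _).le
  refine h1.trans ((sum_Zw_le v g hv N).trans ?_)
  have h2 := hsl_le (C := C) (N + 1) (N + 1) 0 v g hv
  have h3 : ∀ m : ℕ, ∑ l ∈ (brl C (N + 1)).filter (fun l => ht l = m + 1), wg 0 v g l =
      bT C v g (N + 1) (m + 1) := by
    intro m
    rw [bT, brh]
    push_cast
    rfl
  simp only [h3] at h2
  have h0 : 0 ≤ ∑ l ∈ hsl C (N + 1) (N + 1), wg 0 v g l :=
    Finset.sum_nonneg (fun _ _ => (wg_pos _ _ _ _).le)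
  calc Real.exp (v + g) * ((∑ l ∈ hsl C (N + 1) (N + 1), wg 0 v g l) *
        ∑ l ∈ hsl C (N + 1) (N + 1), wg 0 v g l)
      ≤ Real.exp (v + g) * (Real.exp (∑ m ∈ Finset.range (N + 1), bT C v g (N + 1) (m + 1)) *
        Real.exp (∑ m ∈ Finset.range (N + 1), bT C v g (N + 1) (m + 1))) :=
        mul_le_mul_of_nonneg_left (mul_le_mul h2 h2 h0 (Real.exp_pos _).le) (Real.exp_pos _).le
    _ = _ := by
        rw [← Real.exp_add, ← Real.exp_add]
        congr 1
        ring

/-- **No flat zones.** -/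
theorem exists_bT (v : ℝ) (hv : 0 ≤ v) (Q : ℕ) (hQ : 1 ≤ Q) :
    ∃ N T : ℕ, Q < T ∧ T ≤ 4 * Q ∧ 1 / (3200 * (Q : ℝ) ^ 3) < bT C v (G C 0 v) N T := by
  obtain ⟨N, hN⟩ := exists_nat_gt (Real.exp (v + G C 0 v + 2 * ((Q : ℝ) + 1)))
  refine ⟨N + 1, ?_⟩
  by_contra hcon
  push Not at hcon
  have hβ : ∀ T, Q < T → T ≤ 4 * Q →
      bT C v (G C 0 v) (N + 1) T ≤ 1 / (3200 * (Q : ℝ) ^ 3) := fun T h1 h2 => hcon T h1 h2
  have hflat := bT_flat v hv (N + 1) Q hQ hβ
  have hQ1 : (1 : ℝ) ≤ Q := by exact_mod_cast hQ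
  have hsum : ∑ m ∈ Finset.range (N + 1), bT C v (G C 0 v) (N + 1) (m + 1) ≤ (Q : ℝ) + 1 := by
    have e1 : ∑ m ∈ Finset.range (N + 1), bT C v (G C 0 v) (N + 1) (m + 1) =
        ∑ T ∈ Finset.Ioc 0 (N + 1), bT C v (G C 0 v) (N + 1) T := by
      rw [Finset.range_eq_Ico, Finset.sum_Ico_add' (fun T => bT C v (G C 0 v) (N + 1) T) 0 (N + 1) 1]
      apply Finset.sum_congr _ (fun _ _ => rfl)
      ext T
      simp only [Finset.mem_Ico, Finset.mem_Ioc]
      omega
    rw [e1]
    have e2 : ∀ T ∈ Finset.Ioc 0 (N + 1), bT C v (G C 0 v) (N + 1) T ≤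
        (if T ≤ Q then (1 : ℝ) else 0) +
          (if Q < T then 1 / (200 * (Q : ℝ)) * (1 / (T : ℝ) ^ 2) else 0) := by
      intro T hT
      rcases le_or_gt T Q with h | h
      · rw [if_pos h, if_neg (by omega), add_zero]
        exact bT_le_one v _ _
      · rw [if_neg (by omega), if_pos h, zero_add]
        refine (hflat T h).trans (le_of_eq ?_)
        ring
    refine (Finset.sum_le_sum e2).trans ?_
    rw [Finset.sum_add_distrib]
    have e3 : ∑ T ∈ Finset.Ioc 0 (N + 1), (if T ≤ Q then (1 : ℝ) else 0) ≤ Q := by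
      rw [Finset.sum_ite, Finset.sum_const_zero, add_zero, Finset.sum_const, nsmul_eq_mul, mul_one]
      have : ((Finset.Ioc 0 (N + 1)).filter (fun T => T ≤ Q)).card ≤ Q := by
        calc _ ≤ (Finset.Ioc 0 Q).card := by
              apply Finset.card_le_card
              intro T hT
              simp only [Finset.mem_filter, Finset.mem_Ioc] at hT ⊢
              omega
          _ = Q := by rw [Nat.card_Ioc]; omega
      exact_mod_cast this
    have e4 : ∑ T ∈ Finset.Ioc 0 (N + 1),
        (if Q < T then 1 / (200 * (Q : ℝ)) * (1 / (T : ℝ) ^ 2) else 0) ≤ 1 := by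
      rw [Finset.sum_ite, Finset.sum_const_zero, add_zero, ← Finset.mul_sum]
      have e5 : (Finset.Ioc 0 (N + 1)).filter (fun T => Q < T) = Finset.Ioc Q (N + 1) := by
        ext T
        simp only [Finset.mem_filter, Finset.mem_Ioc]
        omega
      rw [e5]
      have e6 := Pool.Agent.SawFlat.sum_inv_sq Q (N + 1) hQ
      have e7 : (1 : ℝ) / Q ≤ 1 := by
        rw [div_le_one (by linarith)]; exact hQ1
      have e8 : 1 / (200 * (Q : ℝ)) ≤ 1 := by
        rw [div_le_one (by positivity)]; linarith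
      have e9 : 0 ≤ ∑ c ∈ Finset.Ioc Q (N + 1), (1 : ℝ) / (c : ℝ) ^ 2 :=
        Finset.sum_nonneg (fun _ _ => by positivity)
      calc 1 / (200 * (Q : ℝ)) * ∑ c ∈ Finset.Ioc Q (N + 1), (1 : ℝ) / (c : ℝ) ^ 2
          ≤ 1 * 1 := mul_le_mul e8 (e6.trans e7) e9 (by norm_num)
        _ = 1 := by norm_num
    linarith
  have h1 := log_le_sum_bT (C := C) v hv N
  have h2 : Real.exp (v + G C 0 v + 2 * ∑ m ∈ Finset.range (N + 1),
      bT C v (G C 0 v) (N + 1) (m + 1)) ≤ Real.exp (v + G C 0 v + 2 * ((Q : ℝ) + 1)) := by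
    apply Real.exp_le_exp.2
    linarith
  linarith

end SawNu.SB
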