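import Pool.Agent.SawFlat.Num
import Pool.Agent.Saw39.SB.HW

/-!
Bridges of a given height: the first cut level above `Q` and the S-shape over the level `Q + 1`.
-/

set_option autoImplicit false

open Classical

namespace SawNu.SB

variable {C : CL}

/-- bridges of length at most `N` and height `T` -/
noncomputable def brh (C : CL) (N T : ℕ) : Finset (List Pt) :=
  (brl C N).filter (fun l => ht l = T)

lemma mem_brh {N T : ℕ} {l : List Pt} : l ∈ brh C N T ↔ l.length ≤ N ∧ Brc C l ∧ ht l = T := by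
  rw [brh, Finset.mem_filter, mem_brl, and_assoc]

/-- weight of the bridges of height `T` and length at most `N` -/
noncomputable def bT (C : CL) (v g : ℝ) (N T : ℕ) : ℝ := ∑ l ∈ brh C N T, wg 0 v g l

/-- weight of the bridges of height `T` without cut levels strictly between `Q` and `T` -/
noncomputable def pT (C : CL) (v g : ℝ) (N Q T : ℕ) : ℝ :=
  ∑ l ∈ (brh C N T).filter (fun l => ∀ t, CutT l t → (ps l t).2 ≤ Q ∨ (T : ℤ) ≤ (ps l t).2),
    wg 0 v g l

lemma bT_nonneg (v g : ℝ) (N T : ℕ) : 0 ≤ bT C v g N T :=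
  Finset.sum_nonneg (fun _ _ => (wg_pos _ _ _ _).le)

lemma pT_nonneg (v g : ℝ) (N Q T : ℕ) : 0 ≤ pT C v g N Q T :=
  Finset.sum_nonneg (fun _ _ => (wg_pos _ _ _ _).le)

lemma pT_le_bT (v g : ℝ) (N Q T : ℕ) : pT C v g N Q T ≤ bT C v g N T :=
  Finset.sum_le_sum_of_subset_of_nonneg (Finset.filter_subset _ _)
    (fun _ _ _ => (wg_pos _ _ _ _).le)

/-- supermultiplicativity -/
theorem bT_mul (v g : ℝ) (N M S T : ℕ) :
    bT C v g N S * bT C v g M T ≤ bT C v g (N + M) (S + T) := by
  rw [bT, bT, bT, Finset.sum_mul_sum, ← Finset.sum_product']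
  apply sum_le_of_inj (fun x : List Pt × List Pt => x.1 ++ x.2)
  · intro x hx
    rw [Finset.mem_product, mem_brh, mem_brh] at hx
    obtain ⟨⟨h1, h2, h3⟩, h4, h5, h6⟩ := hx
    rw [mem_brh, List.length_append]
    refine ⟨by omega, h2.append h5, ?_⟩
    simp only [ht, List.sum_append, Prod.snd_add] at h3 h6 ⊢
    push_cast
    omega
  · intro x hx y hy hxy
    rw [Finset.mem_coe, Finset.mem_product, mem_brh, mem_brh] at hx hy
    obtain ⟨⟨h1, h2, h3⟩, h4, h5, h6⟩ := hx
    obtain ⟨⟨k1, k2, k3⟩, k4, k5, k6⟩ := hy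
    simp only at hxy
    have c1 := cut_junction h2 h5
    have c2 := cut_junction k2 k5
    rw [← hxy] at c2
    have e1 : (ps (x.1 ++ x.2) x.1.length).2 = S := by
      rw [ps_append_left le_rfl, ps_length]
      exact h3
    have e2 : (ps (x.1 ++ x.2) y.1.length).2 = S := by
      rw [hxy, ps_append_left le_rfl, ps_length]
      exact k3
    have e3 := CutT.unique c1 c2 (e1.trans e2.symm)
    have h7 := List.append_inj hxy e3
    exact Prod.ext h7.1 h7.2
  · intro x _
    rw [wg_append]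
  · intro _ _
    exact (wg_pos _ _ _ _).le

lemma bT_zero (v g : ℝ) (N : ℕ) : bT C v g N 0 = 1 := by
  have h : brh C N 0 = {[]} := by
    ext l
    rw [mem_brh, Finset.mem_singleton]
    constructor
    · rintro ⟨h1, h2, h3⟩
      by_contra hne
      have := h2.ht_pos hne
      rw [h3] at this
      simp at this
    · rintro rfl
      exact ⟨Nat.zero_le _, Brc.nil, by simp [ht]⟩
  rw [bT, h, Finset.sum_singleton, wg]
  simp

lemma bT_pow (v g : ℝ) (N T k : ℕ) : bT C v g N T ^ k ≤ bT C v g (k * N) (k * T) := by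
  induction k with
  | zero => rw [pow_zero, Nat.zero_mul, Nat.zero_mul, bT_zero]
  | succ k ih =>
    calc bT C v g N T ^ (k + 1) = bT C v g N T ^ k * bT C v g N T := pow_succ _ _
      _ ≤ bT C v g (k * N) (k * T) * bT C v g N T :=
          mul_le_mul_of_nonneg_right ih (bT_nonneg _ _ _ _)
      _ ≤ bT C v g (k * N + N) (k * T + T) := bT_mul v g _ _ _ _
      _ = bT C v g ((k + 1) * N) ((k + 1) * T) := by rw [Nat.succ_mul, Nat.succ_mul]

/-- sums over the bridges of length at most `N` at the critical point -/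
lemma sum_brl_crit (v : ℝ) (N : ℕ) :
    ∑ l ∈ brl C N, wg 0 v (G C 0 v) l ≤ (N : ℝ) + 1 := by
  have h0 : (brl C N).filter (fun l => 0 ≤ l.length) = brl C N :=
    Finset.filter_true_of_mem (fun _ _ => Nat.zero_le _)
  rw [← h0, sum_brl]
  calc ∑ j ∈ Finset.Ico 0 (N + 1), ∑ l ∈ brs C j, wg 0 v (G C 0 v) l
      ≤ ∑ _j ∈ Finset.Ico 0 (N + 1), (1 : ℝ) := by
        apply Finset.sum_le_sum
        intro j _
        calc ∑ l ∈ brs C j, wg 0 v (G C 0 v) l
            = ∑ l ∈ brs C j, Real.exp (fw 0 v l) * Real.exp (-(G C 0 v * j)) := by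
              apply Finset.sum_congr rfl
              intro l hl
              rw [mem_brs] at hl
              rw [wg, hl.1, ← Real.exp_add, sub_eq_add_neg]
          _ = Zb C 0 v j * Real.exp (-(G C 0 v * j)) := by rw [← Finset.sum_mul, Zb]
          _ ≤ Real.exp (G C 0 v * j) * Real.exp (-(G C 0 v * j)) :=
              mul_le_mul_of_nonneg_right (Zb_le 0 v j) (Real.exp_pos _).le
          _ = 1 := by rw [← Real.exp_add]; simp
    _ = (N : ℝ) + 1 := by simp

/-- at the critical point the weights are at most `1` -/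
theorem bT_le_one (v : ℝ) (N T : ℕ) : bT C v (G C 0 v) N T ≤ 1 := by
  by_contra hcon
  push Not at hcon
  set b := bT C v (G C 0 v) N T with hb
  have h1 : ∀ k : ℕ, b ^ k ≤ (N : ℝ) * k + 1 := by
    intro k
    refine (bT_pow v _ N T k).trans ?_
    have h2 : bT C v (G C 0 v) (k * N) (k * T) ≤ ∑ l ∈ brl C (k * N), wg 0 v (G C 0 v) l :=
      Finset.sum_le_sum_of_subset_of_nonneg (Finset.filter_subset _ _)
        (fun _ _ _ => (wg_pos _ _ _ _).le)
    refine h2.trans ((sum_brl_crit v _).trans (le_of_eq ?_))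
    push_cast
    ring
  -- `b = 1 + δ`
  set δ : ℝ := b - 1 with hδ
  have hδ0 : 0 < δ := by linarith
  obtain ⟨m, hm⟩ := exists_nat_gt ((2 * (N : ℝ) + 1) / δ ^ 2 + 1)
  have hm1 : (1 : ℝ) ≤ m := by
    have : 0 ≤ (2 * (N : ℝ) + 1) / δ ^ 2 := by positivity
    linarith
  have h3 : 1 + (m : ℝ) * δ ≤ b ^ m := by
    have := one_add_mul_le_pow (show (-2 : ℝ) ≤ δ by linarith) m
    rwa [show 1 + δ = b by rw [hδ]; ring] at this
  have h4 : (1 + (m : ℝ) * δ) ^ 2 ≤ b ^ (m * 2) := by
    rw [pow_mul]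
    exact pow_le_pow_left₀ (by positivity) h3 2
  have h5 := h1 (m * 2)
  push_cast at h5
  have h6 : (2 * (N : ℝ) + 1) < m * δ ^ 2 := by
    have : (2 * (N : ℝ) + 1) / δ ^ 2 < m := by linarith
    rwa [div_lt_iff₀ (by positivity)] at this
  have h7 : (m : ℝ) * (2 * N + 1) ≤ m * (m * δ ^ 2) :=
    mul_le_mul_of_nonneg_left h6.le (by linarith)
  have h8 : (0 : ℝ) < m * δ := by positivity
  nlinarith

/-! ### the S-shape over the level `Q + 1` -/

theorem pT_le (v g : ℝ) (hv : 0 ≤ v) (N Q c : ℕ) (hc : Q + 1 < c) :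
    pT C v g N Q c ≤ ∑ x ∈ Finset.Icc 1 (Q + 1), ∑ M ∈ Finset.Ioc (Q + 1) c,
      bT C v g N M * bT C v g N (M - x) * bT C v g N (c - x) := by
  -- the right-hand side as one sum
  have hR : ∑ x ∈ Finset.Icc 1 (Q + 1), ∑ M ∈ Finset.Ioc (Q + 1) c,
      bT C v g N M * bT C v g N (M - x) * bT C v g N (c - x) =
      ∑ z ∈ (Finset.Icc 1 (Q + 1) ×ˢ Finset.Ioc (Q + 1) c).sigma
        (fun z => (brh C N z.2 ×ˢ brh C N (z.2 - z.1)) ×ˢ brh C N (c - z.1)),
        wg 0 v g z.2.1.1 * wg 0 v g z.2.1.2 * wg 0 v g z.2.2 := by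
    rw [Finset.sum_sigma, Finset.sum_product]
    apply Finset.sum_congr rfl
    intro x _
    apply Finset.sum_congr rfl
    intro M _
    simp only
    rw [Finset.sum_product, Finset.sum_product, bT, bT, bT, Finset.sum_mul_sum, Finset.sum_mul]
    apply Finset.sum_congr rfl
    intro E _
    rw [Finset.sum_mul]
    apply Finset.sum_congr rfl
    intro B _
    rw [Finset.mul_sum]
  rw [hR, pT]
  -- choice of the S-shape
  have hex : ∀ l ∈ (brh C N c).filter
      (fun l => ∀ t, CutT l t → (ps l t).2 ≤ Q ∨ (c : ℤ) ≤ (ps l t).2),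
      ∃ q : ℕ × ℕ, ST l q.1 q.2 ∧ (ps l q.2).2 ≤ (Q : ℤ) + 1 ∧ (Q : ℤ) + 1 < (ps l q.1).2 := by
    intro l hl
    rw [Finset.mem_filter, mem_brh] at hl
    obtain ⟨⟨h1, h2, h3⟩, h4⟩ := hl
    obtain ⟨s, t, h5, h6, h7⟩ := exists_ST h2 (m := (Q : ℤ) + 1) (by positivity)
      (by rw [h3]; exact_mod_cast hc) (by
        intro t ht' he
        rcases h4 t ht' with h | h
        · omega
        · omega)
    exact ⟨(s, t), h5, h6, h7⟩
  choose! q hq1 hq2 hq3 using hex
  apply sum_le_of_inj (fun l => (⟨((ps l (q l).2).2.toNat, (ps l (q l).1).2.toNat),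
    ((l.take (q l).1, ((l.take (q l).2).drop (q l).1).map rhoH), l.drop (q l).2)⟩ :
      Σ _ : ℕ × ℕ, (List Pt × List Pt) × List Pt))
  · intro l hl
    have g1 := hq1 l hl
    have g2 := hq2 l hl
    have g3 := hq3 l hl
    rw [Finset.mem_filter, mem_brh] at hl
    obtain ⟨⟨h1, h2, h3⟩, h4⟩ := hl
    obtain ⟨a1, a2, a3, a4, a5⟩ := ST_split h2 g1
    have hlt := g1.lt
    have hle := g1.le
    have hx : 1 ≤ (ps l (q l).2).2 := h2.up (q l).2 (by omega) hle
    have hM : (ps l (q l).1).2 ≤ c := by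
      have := h2.dn (q l).1 (by omega)
      rw [← h3]
      exact this
    rw [Finset.mem_sigma, Finset.mem_product, Finset.mem_Icc, Finset.mem_Ioc, Finset.mem_product,
      Finset.mem_product, mem_brh, mem_brh, mem_brh]
    simp only
    refine ⟨⟨⟨by omega, by omega⟩, by omega, by omega⟩, ⟨⟨?_, a1, ?_⟩, ?_, a2, ?_⟩, ?_, a3, ?_⟩
    · rw [List.length_take]; omega
    · simp only [ht]
      show (ps l (q l).1).2 = _
      omega
    · rw [length_mid hle]; omega
    · rw [a5]; omega
    · rw [List.length_drop]; omega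
    · have h5 : ht (l.drop (q l).2) = ht l - (ps l (q l).2).2 := by
        simp only [ht, sum_drop, Prod.snd_sub]
      rw [h5, h3]
      omega
  · intro l hl l' hl' heq
    have g1 := hq1 l hl
    have g1' := hq1 l' hl'
    simp only [Sigma.mk.injEq, heq_eq_eq, Prod.mk.injEq] at heq
    obtain ⟨-, ⟨e1, e2⟩, e3⟩ := heq
    refine (cut3_inj g1 g1' ?_).1
    simp only [cut3, e1, e2, e3]
  · intro l hl
    have g1 := hq1 l hl
    rw [Finset.mem_filter, mem_brh] at hl
    obtain ⟨⟨h1, h2, h3⟩, h4⟩ := hl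
    have h5 := fw_cut3 0 v h2 g1
    simp only [cut3] at h5
    simp only
    rw [wg, wg, wg, wg, ← Real.exp_add, ← Real.exp_add]
    apply Real.exp_le_exp.2
    have hlt := g1.lt
    have hle := g1.le
    have hsz : 0 ≤ sz l (q l) := by
      have := g1.mid (q l).2 hlt le_rfl
      rw [sz]
      have h6 : (0 : ℤ) ≤ (ps l (q l).1).2 - (ps l (q l).2).2 := by omega
      exact_mod_cast h6
    have hlen : (l.length : ℝ) = ((l.take (q l).1).length : ℝ) +
        ((((l.take (q l).2).drop (q l).1).map rhoH).length : ℝ) + ((l.drop (q l).2).length : ℝ) := by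
      have : l.length = (l.take (q l).1).length +
        (((l.take (q l).2).drop (q l).1).map rhoH).length + (l.drop (q l).2).length := by
        rw [length_mid hle, List.length_take, List.length_drop]
        omega
      exact_mod_cast this
    rw [hlen]
    have := mul_nonneg hv hsz
    nlinarith
  · intro _ _
    exact mul_nonneg (mul_nonneg (wg_pos _ _ _ _).le (wg_pos _ _ _ _).le) (wg_pos _ _ _ _).le

/-! ### the first cut level above `Q` -/

theorem bT_le (v g : ℝ) (N Q H : ℕ) (hH : Q < H) :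
    bT C v g N H ≤ ∑ c ∈ Finset.Ioc Q H, pT C v g N Q c * bT C v g N (H - c) := by
  have hR : ∑ c ∈ Finset.Ioc Q H, pT C v g N Q c * bT C v g N (H - c) =
      ∑ z ∈ (Finset.Ioc Q H).sigma (fun c => ((brh C N c).filter
        (fun l => ∀ t, CutT l t → (ps l t).2 ≤ Q ∨ (c : ℤ) ≤ (ps l t).2)) ×ˢ brh C N (H - c)),
        wg 0 v g z.2.1 * wg 0 v g z.2.2 := by
    rw [Finset.sum_sigma]
    apply Finset.sum_congr rfl
    intro c _
    rw [Finset.sum_product, pT, bT, Finset.sum_mul_sum]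
  rw [hR, bT]
  have hex : ∀ l ∈ brh C N H, ∃ t : ℕ, CutT l t ∧ (Q : ℤ) < (ps l t).2 ∧
      ∀ r, CutT l r → (Q : ℤ) < (ps l r).2 → t ≤ r := by
    intro l hl
    rw [mem_brh] at hl
    obtain ⟨h1, h2, h3⟩ := hl
    have h4 : ∃ t, CutT l t ∧ (Q : ℤ) < (ps l t).2 := by
      refine ⟨l.length, h2.cut_length, ?_⟩
      rw [ps_length]
      have : l.sum.2 = ht l := rfl
      rw [this, h3]
      exact_mod_cast hH
    refine ⟨Nat.find h4, (Nat.find_spec h4).1, (Nat.find_spec h4).2, fun r h5 h6 => ?_⟩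
    exact Nat.find_min' h4 ⟨h5, h6⟩
  choose! q hq1 hq2 hq3 using hex
  apply sum_le_of_inj (fun l => (⟨(ps l (q l)).2.toNat, (l.take (q l), l.drop (q l))⟩ :
      Σ _ : ℕ, List Pt × List Pt))
  · intro l hl
    have g1 := hq1 l hl
    have g2 := hq2 l hl
    have g3 := hq3 l hl
    rw [mem_brh] at hl
    obtain ⟨h1, h2, h3⟩ := hl
    have hle := g1.le
    have hM : (ps l (q l)).2 ≤ H := by
      have := h2.dn (q l) hle
      rw [← h3]
      exact this
    have htake := h2.take_cut g1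
    have hdrop := h2.drop_cut g1
    have hlen : (l.take (q l)).length = q l := by rw [List.length_take]; omega
    rw [Finset.mem_sigma, Finset.mem_Ioc, Finset.mem_product, Finset.mem_filter, mem_brh, mem_brh]
    simp only
    refine ⟨⟨by omega, by omega⟩, ⟨⟨?_, htake, ?_⟩, ?_⟩, ?_, hdrop, ?_⟩
    · rw [hlen]; omega
    · simp only [ht]
      show (ps l (q l)).2 = _
      omega
    · intro r hr
      have hrl := hr.le
      rw [hlen] at hrl
      have h5 : CutT (l.take (q l) ++ l.drop (q l)) r :=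
        (cut_append_left htake hdrop (by rw [hlen]; exact hrl)).2 hr
      rw [List.take_append_drop] at h5
      have h6 : ps (l.take (q l)) r = ps l r := by rw [ps_take, min_eq_left hrl]
      rw [h6]
      by_cases h7 : (ps l r).2 ≤ Q
      · exact Or.inl h7
      · right
        have h8 := g3 r h5 (by omega)
        have h9 : r = q l := by omega
        rw [h9]
        omega
    · rw [List.length_drop]; omega
    · have h5 : ht (l.drop (q l)) = ht l - (ps l (q l)).2 := by
        simp only [ht, sum_drop, Prod.snd_sub]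
      rw [h5, h3]
      omega
  · intro l hl l' hl' heq
    simp only [Sigma.mk.injEq, heq_eq_eq, Prod.mk.injEq] at heq
    obtain ⟨-, e1, e2⟩ := heq
    rw [← List.take_append_drop (q l) l, e1, e2, List.take_append_drop]
  · intro l hl
    simp only
    rw [← wg_append, List.take_append_drop]
  · intro _ _
    exact mul_nonneg (wg_pos _ _ _ _).le (wg_pos _ _ _ _).le

/-- **Flat zones are impossible (finite form).** If the weights are at most `1/(3200 Q^3)` on
`(Q, 4 Q]` then they are summable. -/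
theorem bT_flat (v : ℝ) (hv : 0 ≤ v) (N Q : ℕ) (hQ : 1 ≤ Q)
    (hβ : ∀ T, Q < T → T ≤ 4 * Q → bT C v (G C 0 v) N T ≤ 1 / (3200 * (Q : ℝ) ^ 3)) :
    ∀ H, Q < H → bT C v (G C 0 v) N H ≤ 1 / (200 * Q) / (H : ℝ) ^ 2 :=
  Pool.Agent.SawFlat.flat_num (bT C v (G C 0 v) N) (pT C v (G C 0 v) N Q) Q hQ
    (fun T => bT_nonneg _ _ _ T) (fun T => bT_le_one v N T) (fun T => pT_nonneg _ _ _ _ T)
    (fun T => pT_le_bT _ _ _ _ T) (fun c hc => pT_le v _ hv N Q c hc)
    (fun H hH => bT_le v _ N Q H hH) hβ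

end SawNu.SB
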