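import Pool.Agent.SawFlat.Mass

/-!
Lengths of the critical crossings.
-/

set_option autoImplicit false

open Classical Filter

namespace SawNu.SB

open Pool.Agent.Lib.SAW.HW Pool.Agent.SawBr38

variable {C : CL} {L : RLat}

lemma isLittleO_rpow_rpow_atTop' {a b : ℝ} (h : a < b) :
    (fun x : ℝ => x ^ a) =o[atTop] fun x => x ^ b := by
  have h1 : (fun x : ℝ => x ^ (a - b) * x ^ b) =ᶠ[atTop] fun x => x ^ a := by
    filter_upwards [eventually_gt_atTop (0 : ℝ)] with x hx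
    rw [← Real.rpow_add hx]
    congr 1
    ring
  refine Asymptotics.IsLittleO.congr' ?_ h1 EventuallyEq.rfl
  have h2 : (fun x : ℝ => x ^ (a - b)) =o[atTop] fun _ => (1 : ℝ) := by
    rw [Asymptotics.isLittleO_one_iff]
    have h3 := tendsto_rpow_neg_atTop (show 0 < b - a by linarith)
    rwa [neg_sub] at h3
  have h3 := h2.mul_isBigO (Asymptotics.isBigO_refl (fun x : ℝ => x ^ b) atTop)
  simpa using h3

/-- auxiliary: the largest `x` with `(2x+1)^2 ≤ n+1` -/
lemma exists_x (n : ℕ) (hn : 100 ≤ n) :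
    ∃ x : ℕ, (2 * x + 1) ^ 2 ≤ n + 1 ∧ Real.sqrt n / 4 ≤ x := by
  refine ⟨(Nat.sqrt (n + 1) - 1) / 2, ?_, ?_⟩
  · have h1 : 2 * ((Nat.sqrt (n + 1) - 1) / 2) + 1 ≤ Nat.sqrt (n + 1) := by
      have h2 : 10 ≤ Nat.sqrt (n + 1) := by
        rw [Nat.le_sqrt']
        omega
      omega
    calc (2 * ((Nat.sqrt (n + 1) - 1) / 2) + 1) ^ 2 ≤ (Nat.sqrt (n + 1)) ^ 2 :=
          Nat.pow_le_pow_left h1 2
      _ ≤ n + 1 := Nat.sqrt_le' (n + 1)
  · have h2 : Real.sqrt n ≤ (Nat.sqrt (n + 1) : ℝ) + 1 := by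
      rw [Real.sqrt_le_left (by positivity)]
      have h3 : n < (Nat.sqrt (n + 1) + 1) ^ 2 := by
        have := Nat.lt_succ_sqrt' (n + 1)
        rw [Nat.succ_eq_add_one] at this
        omega
      have h4 : (n : ℝ) < ((Nat.sqrt (n + 1) : ℝ) + 1) ^ 2 := by exact_mod_cast h3
      exact h4.le
    have h5 : Nat.sqrt (n + 1) ≤ 2 * ((Nat.sqrt (n + 1) - 1) / 2) + 2 := by omega
    have h6 : (Nat.sqrt (n + 1) : ℝ) ≤ 2 * (((Nat.sqrt (n + 1) - 1) / 2 : ℕ) : ℝ) + 2 := by
      exact_mod_cast h5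
    have h7 : (10 : ℝ) ≤ Real.sqrt n := by
      rw [Real.le_sqrt (by norm_num) (by positivity)]
      have : (100 : ℝ) ≤ n := by exact_mod_cast hn
      linarith
    linarith

/-- lower bound for the free energy of the tilted bridges -/
theorem mass_lower (hM : Mirrored L) (hup : ∀ b, ∃ u ∈ L.S b, u.2 = 1)
    (hS : ∀ b, L.S b = C.S) (R : Rot L) {ε : ℝ} (hε : 0 < ε) :
    ∀ᶠ n : ℕ in atTop, 1 ≤ (G C 0 ((n : ℝ) ^ (-(1 / 2) + ε)) - G C 0 0) * n := by
  obtain ⟨K, hK1, hK⟩ := mass_ineq hM hup hS R (δ := ε / 2) (by linarith)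
  have hlog : ∀ᶠ n : ℕ in atTop, Real.log (4 * K ^ 2) + 2 * Real.log ((n : ℝ) + 1) +
      2 * (n : ℝ) ^ (ε / 2) + 1 < (n : ℝ) ^ ε / 4 := by
    have t1 : Tendsto (fun n : ℕ => (n : ℝ)) atTop atTop := tendsto_natCast_atTop_atTop
    have o1 : (fun x : ℝ => Real.log (x + 1)) =o[atTop] fun x => x ^ ε := by
      have h := isLittleO_log_rpow_atTop hε
      have h2 : Tendsto (fun x : ℝ => x + 1) atTop atTop := tendsto_atTop_add_const_right _ _ tendsto_id
      have h3 := h.comp_tendsto h2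
      refine h3.trans_isBigO ?_
      refine Asymptotics.IsBigO.of_bound (2 ^ ε) ?_
      filter_upwards [eventually_ge_atTop (1 : ℝ)] with x hx
      simp only [Function.comp]
      rw [Real.norm_of_nonneg (by positivity), Real.norm_of_nonneg (by positivity),
        ← Real.mul_rpow (by norm_num) (by linarith)]
      exact Real.rpow_le_rpow (by linarith) (by linarith) hε.le
    have o2 : (fun x : ℝ => x ^ (ε / 2)) =o[atTop] fun x => x ^ ε :=
      isLittleO_rpow_rpow_atTop' (by linarith)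
    have o3 : (fun _ : ℝ => Real.log (4 * K ^ 2) + 1) =o[atTop] fun x => x ^ ε :=
      Asymptotics.isLittleO_const_left.2 (Or.inr (tendsto_norm_atTop_atTop.comp
        (tendsto_rpow_atTop hε)))
    have o4 : (fun x : ℝ => (Real.log (4 * K ^ 2) + 1) + (2 * Real.log (x + 1) +
        2 * x ^ (ε / 2))) =o[atTop] fun x => x ^ ε :=
      o3.add ((o1.const_mul_left 2).add (o2.const_mul_left 2))
    have h5 := o4.def (show (0 : ℝ) < 1 / 8 by norm_num)
    have h6 : ∀ᶠ x : ℝ in atTop, Real.log (4 * K ^ 2) + 2 * Real.log (x + 1) +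
        2 * x ^ (ε / 2) + 1 < x ^ ε / 4 := by
      filter_upwards [h5, eventually_ge_atTop (1 : ℝ)] with x hx hx1
      have h7 : 0 < x ^ ε := Real.rpow_pos_of_pos (by linarith) _
      rw [Real.norm_of_nonneg h7.le, Real.norm_eq_abs] at hx
      have h8 := (abs_le.1 hx).2
      linarith
    exact t1.eventually h6
  filter_upwards [hlog, eventually_ge_atTop 100] with n hn hn100
  by_contra hcon
  push Not at hcon
  set v : ℝ := (n : ℝ) ^ (-(1 / 2) + ε) with hv
  have hn0 : (0 : ℝ) < n := by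
    have : (100 : ℝ) ≤ n := by exact_mod_cast hn100
    linarith
  have hv0 : 0 ≤ v := Real.rpow_nonneg hn0.le _
  obtain ⟨x, hx1, hx2⟩ := exists_x n hn100
  have h1 := hK n x hx1 v hv0
  have h2 := Real.log_le_log one_pos h1
  have hKp : 0 < K := by linarith
  rw [Real.log_one, Real.log_mul (by positivity) (Real.exp_pos _).ne', Real.log_exp] at h2
  have h3 : Real.log (4 * ((n : ℝ) + 1) ^ 2 * K ^ 2) =
      Real.log (4 * K ^ 2) + 2 * Real.log ((n : ℝ) + 1) := by
    have : 4 * ((n : ℝ) + 1) ^ 2 * K ^ 2 = (4 * K ^ 2) * ((n : ℝ) + 1) ^ 2 := by ring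
    rw [this, Real.log_mul (by positivity) (by positivity), Real.log_pow]
    norm_num
  rw [h3] at h2
  have h4 : v * Real.sqrt n = (n : ℝ) ^ ε := by
    rw [hv, Real.sqrt_eq_rpow, ← Real.rpow_add hn0]
    congr 1
    ring
  have h5 : (n : ℝ) ^ ε / 4 ≤ v * x := by
    rw [← h4]
    have := mul_le_mul_of_nonneg_left hx2 hv0
    linarith
  linarith

end SawNu.SB
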