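import Mathlib

/-!
A numerical lemma: a renewal-like sequence which is small on `(Q, 4 Q]` is summable.
-/

set_option autoImplicit false

open Finset

namespace Pool.Agent.SawFlat

lemma sum_refl (Q H : ℕ) (hH : 4 * Q < H) (f : ℕ → ℝ) :
    ∑ c ∈ Ioc Q (H - Q - 1), f (H - c) = ∑ c ∈ Ioc Q (H - Q - 1), f c := by
  refine Finset.sum_nbij' (fun c => H - c) (fun c => H - c) ?_ ?_ ?_ ?_ ?_
  · intro c hc
    rw [mem_Ioc] at hc ⊢
    omega
  · intro c hc
    rw [mem_Ioc] at hc ⊢
    omega
  · intro c hc
    rw [mem_Ioc] at hc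
    omega
  · intro c hc
    rw [mem_Ioc] at hc
    omega
  · intro c _
    rfl

lemma sum_inv_sq (Q n : ℕ) (hQ : 1 ≤ Q) : ∑ c ∈ Ioc Q n, (1 : ℝ) / (c : ℝ) ^ 2 ≤ 1 / Q := by
  rcases le_or_gt Q n with h | h
  · have h1 := sum_Ioc_inv_sq_le_sub (α := ℝ) (k := Q) (n := n) (by omega) h
    have h2 : (0 : ℝ) ≤ (n : ℝ)⁻¹ := by positivity
    simp only [one_div]
    linarith
  · rw [Ioc_eq_empty (by omega), sum_empty]
    positivity

/-- the numerical lemma -/
theorem flat_num (b p : ℕ → ℝ) (Q : ℕ) (hQ : 1 ≤ Q) (hb0 : ∀ T, 0 ≤ b T) (hb1 : ∀ T, b T ≤ 1)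
    (hp0 : ∀ T, 0 ≤ p T) (hpb : ∀ T, p T ≤ b T)
    (hp : ∀ c, Q + 1 < c → p c ≤ ∑ x ∈ Icc 1 (Q + 1), ∑ M ∈ Ioc (Q + 1) c,
      b M * b (M - x) * b (c - x))
    (hH : ∀ H, Q < H → b H ≤ ∑ c ∈ Ioc Q H, p c * b (H - c))
    (hβ : ∀ T, Q < T → T ≤ 4 * Q → b T ≤ 1 / (3200 * (Q : ℝ) ^ 3)) :
    ∀ H, Q < H → b H ≤ 1 / (200 * Q) / (H : ℝ) ^ 2 := by
  have hQ1 : (1 : ℝ) ≤ Q := by exact_mod_cast hQ
  have hQ0 : (0 : ℝ) < Q := by linarith
  intro H
  induction H using Nat.strong_induction_on with
  | _ H ih =>
    intro hQH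
    have hH0 : (0 : ℝ) < H := by
      have : 0 < H := by omega
      exact_mod_cast this
    rcases le_or_gt H (4 * Q) with h4 | h4
    · refine (hβ H hQH h4).trans ?_
      rw [div_div]
      apply one_div_le_one_div_of_le (by positivity)
      have h5 : (H : ℝ) ≤ 4 * Q := by exact_mod_cast h4
      have h6 : (H : ℝ) ^ 2 ≤ (4 * Q) ^ 2 := pow_le_pow_left₀ hH0.le h5 2
      nlinarith
    · set K : ℝ := 1 / (200 * Q) with hK
      have hK0 : 0 < K := by positivity
      have hKQ : 200 * Q * K = 1 := by
        rw [hK]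
        field_simp
      have hH4 : (4 : ℝ) * Q + 1 ≤ H := by exact_mod_cast h4
      -- the values far away
      have hfar : ∀ m : ℕ, H ≤ m + 2 * Q + 1 → m < H → b m ≤ 25 / 4 * K / (H : ℝ) ^ 2 := by
        intro m hm1 hm2
        have h1 := ih m hm2 (by omega)
        have hm : (2 / 5 : ℝ) * H ≤ m := by
          have h2 : (H : ℝ) ≤ m + 2 * Q + 1 := by exact_mod_cast hm1
          nlinarith
        have hm0 : (0 : ℝ) < m := by nlinarith
        refine h1.trans ?_
        rw [div_le_div_iff₀ (by positivity) (by positivity)]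
        have h3 : ((2 / 5 : ℝ) * H) ^ 2 ≤ (m : ℝ) ^ 2 := pow_le_pow_left₀ (by positivity) hm 2
        nlinarith
      -- the first part of the sum
      have hS1 : ∑ c ∈ Ioc Q (H - Q - 1), p c * b (H - c) ≤ K / (H : ℝ) ^ 2 * (1 / 50) := by
        have h1 : ∀ c ∈ Ioc Q (H - Q - 1), p c * b (H - c) ≤
            K ^ 2 * (2 / (H : ℝ) ^ 2) * (1 / (c : ℝ) ^ 2 + 1 / (((H - c : ℕ) : ℝ)) ^ 2) := by
          intro c hc
          rw [mem_Ioc] at hc
          have e1 := (hpb c).trans (ih c (by omega) hc.1)
          have e2 := ih (H - c) (by omega) (by omega)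
          have c0 : (0 : ℝ) < c := by
            have : 0 < c := by omega
            exact_mod_cast this
          have d0 : (0 : ℝ) < ((H - c : ℕ) : ℝ) := by
            have : 0 < H - c := by omega
            exact_mod_cast this
          have hsum : (H : ℝ) = c + ((H - c : ℕ) : ℝ) := by
            have : H = c + (H - c) := by omega
            exact_mod_cast this
          set d : ℝ := ((H - c : ℕ) : ℝ) with hd
          calc p c * b (H - c) ≤ (K / (c : ℝ) ^ 2) * (K / d ^ 2) :=
                mul_le_mul e1 e2 (hb0 _) (by positivity)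
            _ = K ^ 2 * (1 / ((c : ℝ) ^ 2 * d ^ 2)) := by
                field_simp
            _ ≤ K ^ 2 * (2 / (H : ℝ) ^ 2 * (1 / (c : ℝ) ^ 2 + 1 / d ^ 2)) := by
                apply mul_le_mul_of_nonneg_left _ (by positivity)
                have e3 : 2 / (H : ℝ) ^ 2 * (1 / (c : ℝ) ^ 2 + 1 / d ^ 2) =
                    (2 * (c : ℝ) ^ 2 + 2 * d ^ 2) / ((H : ℝ) ^ 2 * ((c : ℝ) ^ 2 * d ^ 2)) := by
                  field_simp
                  ring
                rw [e3, div_le_div_iff₀ (by positivity) (by positivity), one_mul]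
                have e4 : (H : ℝ) ^ 2 ≤ 2 * (c : ℝ) ^ 2 + 2 * d ^ 2 := by
                  rw [hsum]
                  nlinarith [sq_nonneg ((c : ℝ) - d)]
                exact mul_le_mul_of_nonneg_right e4 (by positivity)
            _ = _ := by ring
        refine (sum_le_sum h1).trans ?_
        rw [← mul_sum, sum_add_distrib]
        have h2 := sum_inv_sq Q (H - Q - 1) hQ
        have h3 := sum_refl Q H h4 (fun c => (1 : ℝ) / (c : ℝ) ^ 2)
        rw [h3]
        calc K ^ 2 * (2 / (H : ℝ) ^ 2) * (∑ c ∈ Ioc Q (H - Q - 1), (1 : ℝ) / (c : ℝ) ^ 2 +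
              ∑ c ∈ Ioc Q (H - Q - 1), (1 : ℝ) / (c : ℝ) ^ 2)
            ≤ K ^ 2 * (2 / (H : ℝ) ^ 2) * (1 / Q + 1 / Q) := by
              apply mul_le_mul_of_nonneg_left _ (by positivity)
              linarith
          _ = K / (H : ℝ) ^ 2 * (4 * K / Q) := by
              field_simp
              ring
          _ ≤ K / (H : ℝ) ^ 2 * (1 / 50) := by
              apply mul_le_mul_of_nonneg_left _ (by positivity)
              rw [div_le_div_iff₀ hQ0 (by norm_num)]
              nlinarith
      -- the second part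
      have hS2 : ∀ c ∈ Ioc (H - Q - 1) H, p c * b (H - c) ≤
          (Q + 1) * (K / Q * (25 / 4 * K / (H : ℝ) ^ 2) + b H * (25 / 4 * K / (H : ℝ) ^ 2) ^ 2) := by
        intro c hc
        rw [mem_Ioc] at hc
        have e0 : p c * b (H - c) ≤ p c := by
          have := mul_le_mul_of_nonneg_left (hb1 (H - c)) (hp0 c)
          linarith
        refine e0.trans ((hp c (by omega)).trans ?_)
        set F : ℝ := 25 / 4 * K / (H : ℝ) ^ 2 with hF
        have hF0 : 0 ≤ F := by positivity
        have e1 : ∀ x ∈ Icc 1 (Q + 1), ∑ M ∈ Ioc (Q + 1) c, b M * b (M - x) * b (c - x) ≤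
            K / Q * F + b H * F ^ 2 := by
          intro x hx
          rw [mem_Icc] at hx
          have e2 : ∀ M ∈ Ioc (Q + 1) c, b M * b (M - x) * b (c - x) ≤
              K * F * (1 / (M : ℝ) ^ 2) + (if M = H then b H * F ^ 2 else 0) := by
            intro M hM
            rw [mem_Ioc] at hM
            have e3 : b (c - x) ≤ F := hfar (c - x) (by omega) (by omega)
            by_cases hMH : M = H
            · subst hMH
              have hcM : c = M := by omega
              subst hcM
              rw [if_pos rfl]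
              have e5 : 0 ≤ K * F * (1 / (c : ℝ) ^ 2) := by positivity
              have e6 : b c * b (c - x) * b (c - x) ≤ b c * F ^ 2 := by
                rw [mul_assoc, sq]
                exact mul_le_mul_of_nonneg_left
                  (mul_le_mul e3 e3 (hb0 _) hF0) (hb0 c)
              linarith
            · rw [if_neg hMH, add_zero]
              have e4 := ih M (by omega) (by omega)
              have e5 : b M * b (M - x) ≤ K / (M : ℝ) ^ 2 := by
                calc b M * b (M - x) ≤ b M * 1 := mul_le_mul_of_nonneg_left (hb1 _) (hb0 _)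
                  _ ≤ _ := by rw [mul_one]; exact e4
              calc b M * b (M - x) * b (c - x) ≤ K / (M : ℝ) ^ 2 * F :=
                    mul_le_mul e5 e3 (hb0 _) (by positivity)
                _ = K * F * (1 / (M : ℝ) ^ 2) := by ring
          refine (sum_le_sum e2).trans ?_
          rw [sum_add_distrib, ← mul_sum]
          have e7 : ∑ M ∈ Ioc (Q + 1) c, (1 : ℝ) / (M : ℝ) ^ 2 ≤ 1 / Q := by
            refine (sum_inv_sq (Q + 1) c (by omega)).trans ?_
            apply one_div_le_one_div_of_le hQ0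
            push_cast
            linarith
          have e8 : ∑ M ∈ Ioc (Q + 1) c, (if M = H then b H * F ^ 2 else 0) ≤ b H * F ^ 2 := by
            rw [sum_ite_eq']
            split_ifs
            · exact le_rfl
            · exact mul_nonneg (hb0 _) (by positivity)
          have e9 : K * F * ∑ M ∈ Ioc (Q + 1) c, (1 : ℝ) / (M : ℝ) ^ 2 ≤ K * F * (1 / Q) :=
            mul_le_mul_of_nonneg_left e7 (by positivity)
          calc _ ≤ K * F * (1 / Q) + b H * F ^ 2 := add_le_add e9 e8
            _ = _ := by ring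
        refine (sum_le_card_nsmul _ _ _ e1).trans (le_of_eq ?_)
        rw [Nat.card_Icc, nsmul_eq_mul, Nat.add_sub_cancel]
        push_cast
        ring
      have hsplit : Ioc Q H = Ioc Q (H - Q - 1) ∪ Ioc (H - Q - 1) H := by
        ext c
        simp only [mem_union, mem_Ioc]
        omega
      have hdisj : Disjoint (Ioc Q (H - Q - 1)) (Ioc (H - Q - 1) H) := by
        rw [disjoint_left]
        intro c hc
        simp only [mem_Ioc] at hc ⊢
        omega
      have hmain := hH H hQH
      rw [hsplit, sum_union hdisj] at hmain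
      have hS2' := sum_le_card_nsmul _ _ _ hS2
      have hcard : (Ioc (H - Q - 1) H).card = Q + 1 := by
        rw [Nat.card_Ioc]
        omega
      rw [hcard, nsmul_eq_mul] at hS2'
      push_cast at hS2'
      have hb := hb0 H
      set y : ℝ := 1 / (H : ℝ) ^ 2 with hy
      have hy0 : 0 < y := by positivity
      have hKy : K / (H : ℝ) ^ 2 = K * y := by rw [hy]; ring
      have hFy : 25 / 4 * K / (H : ℝ) ^ 2 = 25 / 4 * K * y := by rw [hy]; ring
      rw [hKy] at hS1 ⊢
      rw [hFy] at hS2'
      have hQQ : ((Q : ℝ) + 1) * ((Q : ℝ) + 1) ≤ 4 * Q ^ 2 := by nlinarith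
      have hKQ' : K / Q * Q = K := by field_simp
      -- main term
      have t1 : ((Q : ℝ) + 1) * (((Q : ℝ) + 1) * (K / Q * (25 / 4 * K * y) +
          b H * (25 / 4 * K * y) ^ 2)) ≤ K * y * (1 / 8) + b H * (1 / 200) := by
        have s1 : ((Q : ℝ) + 1) * (((Q : ℝ) + 1) * (K / Q * (25 / 4 * K * y) +
            b H * (25 / 4 * K * y) ^ 2)) ≤ 4 * Q ^ 2 * (K / Q * (25 / 4 * K * y) +
            b H * (25 / 4 * K * y) ^ 2) := by
          rw [← mul_assoc]
          apply mul_le_mul_of_nonneg_right hQQ
          positivity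
        refine s1.trans ?_
        have s2 : 4 * (Q : ℝ) ^ 2 * (K / Q * (25 / 4 * K * y)) = K * y * (1 / 8) := by
          calc 4 * (Q : ℝ) ^ 2 * (K / Q * (25 / 4 * K * y))
              = (K / Q * Q) * (25 * Q * K * y) := by ring
            _ = K * (25 * Q * K * y) := by rw [hKQ']
            _ = K * y * (200 * Q * K) * (1 / 8) := by ring
            _ = K * y * (1 / 8) := by rw [hKQ, mul_one]
        have s3 : 4 * (Q : ℝ) ^ 2 * (b H * (25 / 4 * K * y) ^ 2) ≤ b H * (1 / 200) := by
          have s4 : 4 * (Q : ℝ) ^ 2 * (b H * (25 / 4 * K * y) ^ 2) =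
              b H * ((200 * Q * K) ^ 2 * y ^ 2 * (1 / 256)) := by ring
          rw [s4, hKQ]
          apply mul_le_mul_of_nonneg_left _ hb
          have s5 : y ≤ 1 := by
            rw [hy, div_le_one (by positivity)]
            have : (1 : ℝ) ≤ H := by linarith
            nlinarith
          nlinarith
        rw [mul_add, s2]
        linarith
      have hfin : b H ≤ K * y * (1 / 50) + (K * y * (1 / 8) + b H * (1 / 200)) := by
        calc b H ≤ _ := hmain
          _ ≤ K * y * (1 / 50) + (K * y * (1 / 8) + b H * (1 / 200)) := by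
              apply add_le_add hS1
              exact hS2'.trans t1
      have : 0 < K * y := by positivity
      linarith

end Pool.Agent.SawFlat
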